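import Pool.Agent.Helper51.DO.Defs

/-!
# Displaced ordinates (MP_a499ba_nt): from the two halves to the limits

Deterministic part. Author: helper11.
-/

set_option autoImplicit false

namespace Pool.Agent.Helper11.DO

open MeasureTheory ProbabilityTheory Filter Finset Pool.Agent.Helper51.DO

/-- `limsup A(T) / (log T)^(5/4)`. -/
noncomputable def Bd (g : ℕ → ℝ) (c : ℕ → ℂ) : EReal :=
  limsup (fun T : ℝ => ((height g c T / Real.log T ^ ((5 : ℝ) / 4) : ℝ) : EReal)) atTop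

/-- `(log log y)^(5/4)`. -/
noncomputable def ll (y : ℝ) : ℝ := Real.log (Real.log y) ^ ((5 : ℝ) / 4)

theorem ll_tendsto : Tendsto ll atTop atTop :=
  (tendsto_rpow_atTop (by norm_num)).comp (Real.tendsto_log_atTop.comp Real.tendsto_log_atTop)

theorem logpow_tendsto : Tendsto (fun T : ℝ => Real.log T ^ ((5 : ℝ) / 4)) atTop atTop :=
  (tendsto_rpow_atTop (by norm_num)).comp Real.tendsto_log_atTop

theorem Bd_nonneg (g : ℕ → ℝ) (c : ℕ → ℂ) : 0 ≤ Bd g c := by
  unfold Bd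
  refine le_limsup_of_frequently_le ?_
  refine Eventually.frequently ?_
  filter_upwards [eventually_ge_atTop (1 : ℝ)] with T hT
  have : 0 ≤ height g c T / Real.log T ^ ((5 : ℝ) / 4) :=
    div_nonneg (height_nonneg g c T) (Real.rpow_nonneg (Real.log_nonneg hT) _)
  exact_mod_cast this

/-- A small parameter. -/
theorem small_par {s z : ℝ} (h : s < z) : ∃ k : ℕ, s * (1 + 1 / ((k : ℝ) + 1)) ^ ((5 : ℝ) / 4) < z := by
  have h1 : Tendsto (fun k : ℕ => s * (1 + 1 / ((k : ℝ) + 1)) ^ ((5 : ℝ) / 4)) atTop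
      (nhds (s * (1 + 0) ^ ((5 : ℝ) / 4))) := by
    refine Tendsto.const_mul s (Tendsto.rpow_const ?_ (Or.inl (by norm_num)))
    exact tendsto_const_nhds.add tendsto_one_div_add_atTop_nhds_zero_nat
  rw [add_zero, Real.one_rpow, mul_one] at h1
  exact (h1.eventually (gt_mem_nhds h)).exists

/-- The upper bound. -/
theorem up_real {g : ℕ → ℝ} {c : ℕ → ℂ} {f : ℝ → ℝ}
    (hU : ∀ k : ℕ, ∀ᶠ y : ℝ in atTop, |f y| ≤ height g c (Real.log y ^ (1 + 1 / ((k : ℝ) + 1))) + 1)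
    {z : ℝ} (hz : Bd g c < z) : ∀ᶠ y : ℝ in atTop, |f y / ll y| ≤ z := by
  obtain ⟨s, hs1, hs2⟩ := EReal.lt_iff_exists_real_btwn.1 hz
  have hs2' : s < z := by exact_mod_cast hs2
  have hs0 : 0 < s := by
    have := (Bd_nonneg g c).trans_lt hs1
    exact_mod_cast this
  obtain ⟨k, hk⟩ := small_par hs2'
  set ε : ℝ := 1 / ((k : ℝ) + 1) with hε
  have hε0 : 0 < ε := by positivity
  have h1 : ∀ᶠ T : ℝ in atTop, ((height g c T / Real.log T ^ ((5 : ℝ) / 4) : ℝ) : EReal) < s :=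
    eventually_lt_of_limsup_lt hs1 (by isBoundedDefault)
  have hT : Tendsto (fun y : ℝ => Real.log y ^ (1 + ε)) atTop atTop :=
    (tendsto_rpow_atTop (by linarith)).comp Real.tendsto_log_atTop
  have h2 := hT.eventually (h1.and (eventually_gt_atTop 1))
  have h3 : ∀ᶠ y : ℝ in atTop, 1 ≤ (z - s * (1 + ε) ^ ((5 : ℝ) / 4)) * ll y :=
    (ll_tendsto.const_mul_atTop (by linarith)).eventually_ge_atTop 1
  filter_upwards [hU k, h2, h3, ll_tendsto.eventually_gt_atTop 0,
    (Real.tendsto_log_atTop.comp Real.tendsto_log_atTop).eventually_gt_atTop 0,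
    Real.tendsto_log_atTop.eventually_gt_atTop 0] with y hy1 hy2 hy3 hy4 hy5 hy6
  obtain ⟨hy2a, hy2b⟩ := hy2
  simp only [Function.comp_apply] at hy5
  have h4 : height g c (Real.log y ^ (1 + ε)) / Real.log (Real.log y ^ (1 + ε)) ^ ((5 : ℝ) / 4) < s := by
    exact_mod_cast hy2a
  have h5 : Real.log (Real.log y ^ (1 + ε)) = (1 + ε) * Real.log (Real.log y) := Real.log_rpow hy6 _
  have h6 : Real.log (Real.log y ^ (1 + ε)) ^ ((5 : ℝ) / 4) = (1 + ε) ^ ((5 : ℝ) / 4) * ll y := by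
    rw [h5, Real.mul_rpow (by linarith) hy5.le]
    rfl
  have h7 : 0 < (1 + ε) ^ ((5 : ℝ) / 4) := Real.rpow_pos_of_pos (by linarith) _
  rw [h6, div_lt_iff₀ (mul_pos h7 hy4)] at h4
  rw [abs_div, abs_of_pos hy4, div_le_iff₀ hy4]
  nlinarith

/-- The parameters for the lower bound. -/
theorem low_real {g : ℕ → ℝ} {c : ℕ → ℂ} {z : ℝ} (hz : (z : EReal) < Bd g c) :
    ∃ (ε η : ℝ) (T : ℕ → ℝ), 0 < ε ∧ 0 < η ∧ η < 1 ∧ Tendsto T atTop atTop ∧ ∀ f : ℝ → ℝ,
      (∃ᶠ k : ℕ in atTop, ∃ y : ℝ, Real.exp (T k ^ (1 + ε)) ≤ y ∧ y ≤ 2 * Real.exp (T k ^ (1 + ε)) ∧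
        (1 - η) * height g c (T k) - 1 ≤ f y) → ∃ᶠ y : ℝ in atTop, z ≤ f y / ll y := by
  -- reduction
  have key : ∀ (ε η : ℝ) (T : ℕ → ℝ), 0 < ε → Tendsto T atTop atTop →
      (∀ᶠ k : ℕ in atTop, ∀ y : ℝ, Real.exp (T k ^ (1 + ε)) ≤ y → y ≤ 2 * Real.exp (T k ^ (1 + ε)) →
        0 < ll y ∧ z * ll y ≤ (1 - η) * height g c (T k) - 1) → ∀ f : ℝ → ℝ,
      (∃ᶠ k : ℕ in atTop, ∃ y : ℝ, Real.exp (T k ^ (1 + ε)) ≤ y ∧ y ≤ 2 * Real.exp (T k ^ (1 + ε)) ∧
        (1 - η) * height g c (T k) - 1 ≤ f y) → ∃ᶠ y : ℝ in atTop, z ≤ f y / ll y := by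
    intro ε η T hε hT hk f hf
    rw [frequently_atTop]
    intro a
    have hT' : Tendsto (fun k : ℕ => Real.exp (T k ^ (1 + ε))) atTop atTop :=
      Real.tendsto_exp_atTop.comp ((tendsto_rpow_atTop (by linarith)).comp hT)
    obtain ⟨k, ⟨y, hy1, hy2, hy3⟩, hk1, hk2⟩ :=
      (hf.and_eventually (hk.and (hT'.eventually_ge_atTop a))).exists
    obtain ⟨h1, h2⟩ := hk1 y hy1 hy2
    exact ⟨y, hk2.trans hy1, (le_div_iff₀ h1).2 (h2.trans hy3)⟩
  rcases lt_or_ge z 0 with hz0 | hz0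
  · refine ⟨1, 1 / 2, fun k => k, one_pos, by norm_num, by norm_num, tendsto_natCast_atTop_atTop,
      key 1 (1 / 2) _ one_pos tendsto_natCast_atTop_atTop ?_⟩
    have h1 : ∀ᶠ y : ℝ in atTop, 1 ≤ (-z) * ll y ∧ 0 < ll y :=
      ((ll_tendsto.const_mul_atTop (by linarith)).eventually_ge_atTop 1).and (ll_tendsto.eventually_gt_atTop 0)
    obtain ⟨Y, hY⟩ := h1.exists_forall_of_atTop
    have hT' : Tendsto (fun k : ℕ => Real.exp ((k : ℝ) ^ ((1 : ℝ) + 1))) atTop atTop :=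
      Real.tendsto_exp_atTop.comp ((tendsto_rpow_atTop (by norm_num)).comp tendsto_natCast_atTop_atTop)
    filter_upwards [hT'.eventually_ge_atTop Y] with k hk y hy1 _
    obtain ⟨h2, h3⟩ := hY y (hk.trans hy1)
    refine ⟨h3, ?_⟩
    have := height_nonneg g c k
    linarith
  · obtain ⟨s, hs1, hs2⟩ := EReal.lt_iff_exists_real_btwn.1 hz
    have hs1' : z < s := by exact_mod_cast hs1
    have hs0 : 0 < s := lt_of_le_of_lt hz0 hs1'
    have h1 : ∃ᶠ T : ℝ in atTop, (s : EReal) < ((height g c T / Real.log T ^ ((5 : ℝ) / 4) : ℝ) : EReal) :=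
      frequently_lt_of_lt_limsup (by isBoundedDefault) hs2
    obtain ⟨T, hT, hTs⟩ := exists_seq_forall_of_frequently h1
    -- η
    set η : ℝ := (s - z) / (2 * s) with hη
    have hη0 : 0 < η := by
      have : 0 < s - z := by linarith
      positivity
    have hη1 : η < 1 := by
      rw [hη, div_lt_one (by positivity)]
      linarith
    have hηs : (1 - η) * s = (s + z) / 2 := by
      rw [hη]
      field_simp
      ring
    have hlt : z < (1 - η) * s := by
      rw [hηs]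
      linarith
    obtain ⟨k₀, hk₀⟩ := small_par hlt
    set ε' : ℝ := 1 / ((k₀ : ℝ) + 1) with hε'
    have hε'0 : 0 < ε' := by positivity
    refine ⟨ε' / 2, η, T, by positivity, hη0, hη1, hT, key (ε' / 2) η T (by positivity) hT ?_⟩
    have h2 : ∀ᶠ t : ℝ in atTop, 1 ≤ ((1 - η) * s - z * (1 + ε') ^ ((5 : ℝ) / 4)) *
        Real.log t ^ ((5 : ℝ) / 4) :=
      (logpow_tendsto.const_mul_atTop (by linarith)).eventually_ge_atTop 1
    have h3 : ∀ᶠ t : ℝ in atTop, Real.log 2 ≤ ε' / 2 * Real.log t :=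
      (Real.tendsto_log_atTop.const_mul_atTop (by positivity)).eventually_ge_atTop _
    filter_upwards [hT.eventually (h2.and (h3.and (eventually_gt_atTop (Real.exp 1))))] with k hk y hy1 hy2
    obtain ⟨hk1, hk2, hk3⟩ := hk
    set t := T k with ht
    have ht1 : 1 < t := lt_trans (by
      have := Real.add_one_lt_exp (show (1 : ℝ) ≠ 0 by norm_num)
      linarith) hk3
    have ht0 : 0 < t := by linarith
    have hlt1 : 1 < Real.log t := by
      rw [← Real.log_exp 1]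
      exact Real.log_lt_log (Real.exp_pos _) hk3
    set U := t ^ (1 + ε' / 2) with hU
    have hU1 : t ≤ U := by
      rw [hU]
      exact Real.self_le_rpow_of_one_le ht1.le (by linarith)
    have hU0 : 0 < U := by linarith
    have hy0 : 0 < y := (Real.exp_pos _).trans_le hy1
    have hly1 : U ≤ Real.log y := by
      rw [← Real.log_exp U]
      exact Real.log_le_log (Real.exp_pos _) hy1
    have hly2 : Real.log y ≤ 2 * U := by
      have h4 := Real.log_le_log hy0 hy2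
      rw [Real.log_mul (by norm_num) (Real.exp_pos _).ne', Real.log_exp] at h4
      have : Real.log 2 ≤ 1 := by
        have := Real.log_two_lt_d9
        linarith
      linarith
    have hlly1 : 1 < Real.log (Real.log y) := by
      have h4 : Real.log t ≤ Real.log (Real.log y) := Real.log_le_log ht0 (hU1.trans hly1)
      linarith
    have hlly2 : Real.log (Real.log y) ≤ (1 + ε') * Real.log t := by
      have h4 := Real.log_le_log (by linarith) hly2
      rw [Real.log_mul (by norm_num) hU0.ne', hU, Real.log_rpow ht0] at h4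
      linarith
    have hll0 : 0 < ll y := Real.rpow_pos_of_pos (by linarith) _
    refine ⟨hll0, ?_⟩
    have hll2 : ll y ≤ (1 + ε') ^ ((5 : ℝ) / 4) * Real.log t ^ ((5 : ℝ) / 4) := by
      rw [← Real.mul_rpow (by linarith) (by linarith)]
      exact Real.rpow_le_rpow (by linarith) hlly2 (by norm_num)
    have hpos : 0 < Real.log t ^ ((5 : ℝ) / 4) := Real.rpow_pos_of_pos (by linarith) _
    have hh : s * Real.log t ^ ((5 : ℝ) / 4) < height g c t := by
      have h4 : s < height g c t / Real.log t ^ ((5 : ℝ) / 4) := by exact_mod_cast hTs k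
      rwa [lt_div_iff₀ hpos] at h4
    have h5 : z * ll y ≤ z * ((1 + ε') ^ ((5 : ℝ) / 4) * Real.log t ^ ((5 : ℝ) / 4)) :=
      mul_le_mul_of_nonneg_left hll2 hz0
    have h6 : (1 - η) * (s * Real.log t ^ ((5 : ℝ) / 4)) ≤ (1 - η) * height g c t :=
      mul_le_mul_of_nonneg_left hh.le (by linarith)
    nlinarith

/-- The limes superior. -/
theorem limsup_eq {g : ℕ → ℝ} {c : ℕ → ℂ} {f : ℝ → ℝ}
    (hU : ∀ k : ℕ, ∀ᶠ y : ℝ in atTop, |f y| ≤ height g c (Real.log y ^ (1 + 1 / ((k : ℝ) + 1))) + 1)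
    (hL : ∀ q : ℚ, ((q : ℝ) : EReal) < Bd g c → ∃ᶠ y : ℝ in atTop, (q : ℝ) ≤ f y / ll y) :
    limsup (fun y : ℝ => ((f y / ll y : ℝ) : EReal)) atTop = Bd g c := by
  refine le_antisymm ?_ ?_
  · rw [← EReal.le_of_forall_lt_iff_le]
    intro z hz
    refine limsup_le_of_le (by isBoundedDefault) ((up_real hU hz).mono fun x hx => ?_)
    exact EReal.coe_le_coe_iff.mpr (abs_le.mp hx).2
  · rw [← EReal.ge_of_forall_gt_iff_ge]
    intro z hz
    obtain ⟨q, hq1, hq2⟩ := EReal.lt_iff_exists_rat_btwn.1 hz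
    have hq1' : z < (q : ℝ) := by exact_mod_cast hq1
    refine le_limsup_of_frequently_le ((hL q hq2).mono fun x hx => ?_)
    exact EReal.coe_le_coe_iff.mpr (hq1'.le.trans hx)

theorem osc_neg (g : ℕ → ℝ) (c : ℕ → ℂ) (w : ℕ → ℝ) (y : ℝ) : osc g (fun n => -c n) w y = -osc g c w y := by
  unfold osc
  simp only [neg_mul, Complex.neg_re, sum_neg_distrib, mul_neg]

theorem height_neg (g : ℕ → ℝ) (c : ℕ → ℂ) : height g (fun n => -c n) = height g c := by
  funext T
  unfold height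
  simp only [norm_neg]

theorem Bd_neg (g : ℕ → ℝ) (c : ℕ → ℂ) : Bd g (fun n => -c n) = Bd g c := by
  unfold Bd
  rw [height_neg]

theorem Data.neg {g : ℕ → ℝ} {c : ℕ → ℂ} (h : Data g c) : Data g (fun n => -c n) where
  pos := h.pos
  fin := h.fin
  count := h.count
  square := by simpa only [norm_neg] using h.square
  size := by simpa only [height_neg] using h.size

variable {Ω : Type*} [MeasurableSpace Ω] {P : Measure Ω}

/-- The two limits for the displaced function of `y`. -/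
theorem limits_y {g : ℕ → ℝ} {c : ℕ → ℂ} {w : ℕ → Ω → ℝ}
    (hU : ∀ ε : ℝ, 0 < ε → ∀ᵐ ω ∂P, ∀ᶠ y : ℝ in atTop,
      |osc g c (fun n => w n ω) y| ≤ height g c (Real.log y ^ (1 + ε)) + 1)
    (hL : ∀ c' : ℕ → ℂ, (c' = c ∨ c' = fun n => -c n) → ∀ ε η : ℝ, 0 < ε → 0 < η → η < 1 →
      ∀ T : ℕ → ℝ, Tendsto T atTop atTop →
      ∀ᵐ ω ∂P, ∃ᶠ k : ℕ in atTop, ∃ y : ℝ, Real.exp (T k ^ (1 + ε)) ≤ y ∧
        y ≤ 2 * Real.exp (T k ^ (1 + ε)) ∧
        (1 - η) * height g c' (T k) - 1 ≤ osc g c' (fun n => w n ω) y) :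
    ∀ᵐ ω ∂P, limsup (fun y : ℝ => ((osc g c (fun n => w n ω) y / ll y : ℝ) : EReal)) atTop = Bd g c ∧
      liminf (fun y : ℝ => ((osc g c (fun n => w n ω) y / ll y : ℝ) : EReal)) atTop = -Bd g c := by
  have hU' : ∀ᵐ ω ∂P, ∀ k : ℕ, ∀ᶠ y : ℝ in atTop,
      |osc g c (fun n => w n ω) y| ≤ height g c (Real.log y ^ (1 + 1 / ((k : ℝ) + 1))) + 1 :=
    ae_all_iff.2 fun k => hU _ (by positivity)
  have hL' : ∀ c' : ℕ → ℂ, (c' = c ∨ c' = fun n => -c n) → ∀ᵐ ω ∂P, ∀ q : ℚ, ((q : ℝ) : EReal) < Bd g c' →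
      ∃ᶠ y : ℝ in atTop, (q : ℝ) ≤ osc g c' (fun n => w n ω) y / ll y := by
    intro c' hc'
    refine ae_all_iff.2 fun q => ?_
    by_cases hq : ((q : ℝ) : EReal) < Bd g c'
    · obtain ⟨ε, η, T, hε, hη, hη1, hT, h⟩ := low_real hq
      filter_upwards [hL c' hc' ε η hε hη hη1 T hT] with ω hω _
      exact h _ hω
    · exact ae_of_all _ fun ω h => absurd h hq
  filter_upwards [hU', hL' c (Or.inl rfl), hL' (fun n => -c n) (Or.inr rfl)] with ω h1 h2 h3
  refine ⟨limsup_eq h1 h2, ?_⟩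
  have h4 : limsup (fun y : ℝ => ((osc g (fun n => -c n) (fun n => w n ω) y / ll y : ℝ) : EReal)) atTop =
      Bd g (fun n => -c n) := by
    refine limsup_eq (fun k => ?_) h3
    rw [height_neg]
    filter_upwards [h1 k] with y hy
    rw [osc_neg, abs_neg]
    exact hy
  rw [Bd_neg] at h4
  have h5 : (fun y : ℝ => ((osc g (fun n => -c n) (fun n => w n ω) y / ll y : ℝ) : EReal)) =
      -fun y : ℝ => ((osc g c (fun n => w n ω) y / ll y : ℝ) : EReal) := by
    funext y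
    rw [osc_neg, Pi.neg_apply, neg_div, EReal.coe_neg]
  rw [h5, EReal.limsup_neg] at h4
  rw [← h4, neg_neg]

/-- Change of variables `y = log x`. -/
theorem map_log_atTop : map Real.log (atTop : Filter ℝ) = atTop := by
  have h : map Real.log (map Real.exp (atTop : Filter ℝ)) = atTop := by
    rw [Filter.map_map]
    have : Real.log ∘ Real.exp = id := by
      funext x
      exact Real.log_exp x
    rw [this, Filter.map_id]
  rwa [Real.map_exp_atTop] at h

theorem limsup_log (F : ℝ → EReal) : limsup (fun x : ℝ => F (Real.log x)) atTop = limsup F atTop := by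
  conv_rhs => rw [← map_log_atTop]
  rfl

theorem liminf_log (F : ℝ → EReal) : liminf (fun x : ℝ => F (Real.log x)) atTop = liminf F atTop := by
  conv_rhs => rw [← map_log_atTop]
  rfl

end Pool.Agent.Helper11.DO
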