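import Pool.Agent.Helper11.DO.Hf

/-!
# Displaced ordinates (MP_a499ba_nt): dyadic blocks and the first Borel-Cantelli lemma

Author: helper11.
-/

set_option autoImplicit false

namespace Pool.Agent.Helper11.DO

open MeasureTheory ProbabilityTheory Filter Finset Pool.Agent.Helper51.DO

open Classical in
/-- The ordinates in `[2^i, 2^(i+1)]`. -/
noncomputable def Dk (g : ℕ → ℝ) (i : ℕ) : Finset ℕ :=
  (upto g (2 ^ (i + 1))).filter fun n => (2 : ℝ) ^ i ≤ g n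

/-- The number of the dyadic block. -/
noncomputable def blk (g : ℕ → ℝ) (n : ℕ) : ℕ := Nat.log 2 ⌊g n⌋₊

open Classical in
/-- The ordinates of a block between two given ones. -/
noncomputable def sub (g : ℕ → ℝ) (i p q : ℕ) : Finset ℕ :=
  (Dk g i).filter fun n => g p ≤ g n ∧ g n ≤ g q

theorem blk_le {g : ℕ → ℝ} {n : ℕ} (h : 1 ≤ g n) : (2 : ℝ) ^ blk g n ≤ g n := by
  have h1 : 1 ≤ ⌊g n⌋₊ := Nat.le_floor (by exact_mod_cast h)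
  have h2 : 2 ^ Nat.log 2 ⌊g n⌋₊ ≤ ⌊g n⌋₊ := Nat.pow_log_le_self 2 (by omega)
  have h3 : ((2 ^ Nat.log 2 ⌊g n⌋₊ : ℕ) : ℝ) ≤ (⌊g n⌋₊ : ℝ) := by exact_mod_cast h2
  push_cast at h3
  exact h3.trans (Nat.floor_le (by linarith))

theorem lt_blk (g : ℕ → ℝ) (n : ℕ) : g n < (2 : ℝ) ^ (blk g n + 1) := by
  have h2 : ⌊g n⌋₊ < 2 ^ (Nat.log 2 ⌊g n⌋₊ + 1) := Nat.lt_pow_succ_log_self (by norm_num) _
  have h3 : (⌊g n⌋₊ : ℝ) + 1 ≤ ((2 ^ (Nat.log 2 ⌊g n⌋₊ + 1) : ℕ) : ℝ) := by exact_mod_cast h2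
  push_cast at h3
  exact (Nat.lt_floor_add_one (g n)).trans_le h3

theorem blk_eq {g : ℕ → ℝ} {n i : ℕ} (h1 : (2 : ℝ) ^ i ≤ g n) (h2 : g n < (2 : ℝ) ^ (i + 1)) :
    blk g n = i := by
  have h0 : (1 : ℝ) ≤ g n := le_trans (one_le_pow₀ (by norm_num)) h1
  have h3 := blk_le h0
  have h4 := lt_blk g n
  have h5 : (2 : ℝ) ^ blk g n < 2 ^ (i + 1) := h3.trans_lt h2
  have h6 : (2 : ℝ) ^ i < 2 ^ (blk g n + 1) := h1.trans_lt h4
  have h7 := (pow_lt_pow_iff_right₀ (by norm_num : (1 : ℝ) < 2)).1 h5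
  have h8 := (pow_lt_pow_iff_right₀ (by norm_num : (1 : ℝ) < 2)).1 h6
  omega

theorem mem_Dk {g : ℕ → ℝ} (hf : ∀ T, {n | g n ≤ T}.Finite) {i n : ℕ} :
    n ∈ Dk g i ↔ g n ≤ (2 : ℝ) ^ (i + 1) ∧ (2 : ℝ) ^ i ≤ g n := by
  classical
  unfold Dk
  rw [mem_filter, mem_upto (hf _)]

theorem sq_Dk {g : ℕ → ℝ} {c : ℕ → ℂ} (h : Data g c) {e : ℝ} (he : 0 < e) :
    ∃ C : ℝ, 0 < C ∧ ∀ i : ℕ, ∑ n ∈ Dk g i, ‖c n‖ ^ 2 ≤ C * ((2 : ℝ) ^ (e - 1)) ^ i := by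
  classical
  obtain ⟨C, hC⟩ := h.square e he
  refine ⟨(|C| + 1) * 2 ^ (1 + e), by positivity, fun i => ?_⟩
  have h1 := hC (2 ^ (i + 1)) (one_le_pow₀ (by norm_num))
  have h2 : ∑ n ∈ Dk g i, ‖c n‖ ^ 2 * (4 : ℝ) ^ i ≤ ∑ n ∈ upto g (2 ^ (i + 1)), (g n * ‖c n‖) ^ 2 := by
    refine (sum_le_sum fun n hn => ?_).trans
      (sum_le_sum_of_subset_of_nonneg (filter_subset _ _) fun n _ _ => sq_nonneg _)
    have h3 := ((mem_Dk h.fin).1 hn).2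
    have h4 : ((2 : ℝ) ^ i) ^ 2 ≤ g n ^ 2 := pow_le_pow_left₀ (by positivity) h3 2
    have h5 : (4 : ℝ) ^ i = ((2 : ℝ) ^ i) ^ 2 := by
      rw [← pow_mul, mul_comm, pow_mul]
      norm_num
    rw [mul_pow, h5, mul_comm]
    exact mul_le_mul_of_nonneg_right h4 (sq_nonneg _)
  rw [← sum_mul] at h2
  have h4i : (0 : ℝ) < 4 ^ i := by positivity
  have e1 : ((2 : ℝ) ^ (i + 1)) ^ (1 + e) = 2 ^ (1 + e) * ((2 : ℝ) ^ (1 + e)) ^ i := by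
    rw [← Real.rpow_natCast 2 (i + 1), ← Real.rpow_mul (by norm_num), ← Real.rpow_natCast _ i,
      ← Real.rpow_mul (by norm_num), ← Real.rpow_add (by norm_num)]
    congr 1
    push_cast
    ring
  have e2 : ((2 : ℝ) ^ (1 + e)) ^ i = ((2 : ℝ) ^ (e - 1)) ^ i * 4 ^ i := by
    rw [← mul_pow]
    congr 1
    have : (4 : ℝ) = 2 ^ (2 : ℝ) := by norm_num
    rw [this, ← Real.rpow_add (by norm_num)]
    congr 1
    ring
  have h5 : (∑ n ∈ Dk g i, ‖c n‖ ^ 2) * 4 ^ i ≤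
      ((|C| + 1) * 2 ^ (1 + e) * ((2 : ℝ) ^ (e - 1)) ^ i) * 4 ^ i := by
    refine (h2.trans h1).trans ?_
    rw [e1, e2]
    have h6 : 0 ≤ 2 ^ (1 + e) * (((2 : ℝ) ^ (e - 1)) ^ i * 4 ^ i) := by positivity
    have h7 : C ≤ |C| + 1 := (le_abs_self C).trans (by linarith)
    calc C * (2 ^ (1 + e) * (((2 : ℝ) ^ (e - 1)) ^ i * 4 ^ i))
        ≤ (|C| + 1) * (2 ^ (1 + e) * (((2 : ℝ) ^ (e - 1)) ^ i * 4 ^ i)) :=
          mul_le_mul_of_nonneg_right h7 h6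
      _ = _ := by ring
  exact le_of_mul_le_mul_right h5 h4i

theorem card_Dk {g : ℕ → ℝ} {c : ℕ → ℂ} (h : Data g c) :
    ∃ C : ℝ, 1 ≤ C ∧ ∀ i : ℕ, ((Dk g i).card : ℝ) ≤ C * 4 ^ i := by
  classical
  obtain ⟨C, hC⟩ := h.count 1 one_pos
  refine ⟨4 * (|C| + 1), by nlinarith [abs_nonneg C], fun i => ?_⟩
  have h1 := hC (2 ^ (i + 1)) (one_le_pow₀ (by norm_num))
  have h2 : ((Dk g i).card : ℝ) ≤ ((upto g (2 ^ (i + 1))).card : ℝ) := by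
    have := card_le_card (filter_subset (fun n => (2 : ℝ) ^ i ≤ g n) (upto g (2 ^ (i + 1))))
    exact Nat.cast_le.2 this
  have e1 : ((2 : ℝ) ^ (i + 1)) ^ ((1 : ℝ) + 1) = 4 * 4 ^ i := by
    have : (1 : ℝ) + 1 = ((2 : ℕ) : ℝ) := by norm_num
    rw [this, Real.rpow_natCast, ← pow_mul, mul_comm (i + 1) 2, pow_mul]
    norm_num
    rw [pow_succ]
    ring
  rw [e1] at h1
  have h7 : C ≤ |C| + 1 := (le_abs_self C).trans (by linarith)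
  calc ((Dk g i).card : ℝ) ≤ C * (4 * 4 ^ i) := h2.trans h1
    _ ≤ (|C| + 1) * (4 * 4 ^ i) := mul_le_mul_of_nonneg_right h7 (by positivity)
    _ = _ := by ring

variable {Ω : Type*} [MeasurableSpace Ω] {P : Measure Ω} [IsProbabilityMeasure P]

/-- The exceptional event of the block `i` for `2^j ≤ y ≤ 2^(j+1)`. -/
def Fv (P : Measure Ω) (g : ℕ → ℝ) (c : ℕ → ℂ) (w : ℕ → Ω → ℝ) (lam : ℕ → ℕ → ℝ) (j i : ℕ) : Set Ω :=
  ⋃ p ∈ Dk g i, ⋃ q ∈ Dk g i, ⋃ k ∈ range (2 ^ j * 16 ^ i + 1),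
    {ω | lam j i ≤ |∑ n ∈ sub g i p q, ct P (w n) (g n) (c n) (2 ^ j + k / 16 ^ i) ω|}

theorem meas_Fv {g : ℕ → ℝ} {c : ℕ → ℂ} {w : ℕ → Ω → ℝ} (hm : ∀ n, Measurable (w n)) (hi : iIndepFun w P)
    {lam : ℕ → ℕ → ℝ} {C1 C2 v : ℝ} (hC1 : 0 < C1) (hv : 0 < v) (hC2 : 1 ≤ C2)
    (h1 : ∀ i : ℕ, ∑ n ∈ Dk g i, ‖c n‖ ^ 2 ≤ C1 * v ^ i)
    (h2 : ∀ i : ℕ, ((Dk g i).card : ℝ) ≤ C2 * 4 ^ i) (hl0 : ∀ j i, 0 ≤ lam j i)
    (hl : ∀ j i : ℕ, 2 * (C1 * v ^ i) * (2 * j + 8 * i) ≤ lam j i ^ 2) (j i : ℕ) :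
    P (Fv P g c w lam j i) ≤
      ENNReal.ofReal (4 * C2 ^ 2 * (2 * Real.exp (-2)) ^ j * (256 * Real.exp (-8)) ^ i) := by
  classical
  have hVi : 0 < C1 * v ^ i := by positivity
  have hb : ∀ p q k : ℕ, P {ω | lam j i ≤ |∑ n ∈ sub g i p q, ct P (w n) (g n) (c n) (2 ^ j + k / 16 ^ i) ω|} ≤
      ENNReal.ofReal (2 * Real.exp (-(2 * j + 8 * i))) := by
    intro p q k
    refine (hoeff hm hi g c _ (sub g i p q) hVi (hl0 j i) ?_).trans ?_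
    · exact (sum_le_sum_of_subset_of_nonneg (filter_subset _ _) fun n _ _ => sq_nonneg _).trans (h1 i)
    · refine ENNReal.ofReal_le_ofReal (mul_le_mul_of_nonneg_left (Real.exp_le_exp.2 ?_) (by norm_num))
      rw [neg_div, neg_le_neg_iff, le_div_iff₀ (by positivity)]
      have := hl j i
      linarith
  set b := ENNReal.ofReal (2 * Real.exp (-(2 * j + 8 * i))) with hbdef
  have hsum : P (Fv P g c w lam j i) ≤
      ∑ p ∈ Dk g i, ∑ q ∈ Dk g i, ∑ k ∈ range (2 ^ j * 16 ^ i + 1), b := by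
    unfold Fv
    refine (measure_biUnion_finset_le _ _).trans (sum_le_sum fun p _ => ?_)
    refine (measure_biUnion_finset_le _ _).trans (sum_le_sum fun q _ => ?_)
    exact (measure_biUnion_finset_le _ _).trans (sum_le_sum fun k _ => hb p q k)
  refine hsum.trans ?_
  rw [sum_const, sum_const, sum_const, card_range, hbdef]
  simp only [nsmul_eq_mul]
  rw [← ENNReal.ofReal_natCast, ← ENNReal.ofReal_natCast, ← ENNReal.ofReal_mul (by positivity),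
    ← ENNReal.ofReal_mul (by positivity), ← ENNReal.ofReal_mul (by positivity)]
  refine ENNReal.ofReal_le_ofReal ?_
  have h3 := h2 i
  have h4 : (((2 ^ j * 16 ^ i + 1 : ℕ)) : ℝ) ≤ 2 * (2 ^ j * 16 ^ i) := by
    push_cast
    have : (1 : ℝ) ≤ 2 ^ j * 16 ^ i := one_le_mul_of_one_le_of_one_le (one_le_pow₀ (by norm_num))
      (one_le_pow₀ (by norm_num))
    linarith
  have e1 : Real.exp (-(2 * (j : ℝ) + 8 * i)) = Real.exp (-2) ^ j * Real.exp (-8) ^ i := by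
    rw [← Real.exp_nat_mul, ← Real.exp_nat_mul, ← Real.exp_add]
    congr 1
    ring
  have e2 : (256 : ℝ) ^ i = 4 ^ i * 4 ^ i * 16 ^ i := by
    rw [← mul_pow, ← mul_pow]
    norm_num
  calc ((Dk g i).card : ℝ) * (((Dk g i).card : ℝ) * ((((2 ^ j * 16 ^ i + 1 : ℕ)) : ℝ) *
        (2 * Real.exp (-(2 * (j : ℝ) + 8 * i)))))
      ≤ (C2 * 4 ^ i) * ((C2 * 4 ^ i) * ((2 * (2 ^ j * 16 ^ i)) *
        (2 * Real.exp (-(2 * (j : ℝ) + 8 * i))))) := by gcongr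
    _ = 4 * C2 ^ 2 * (2 * Real.exp (-2)) ^ j * (256 * Real.exp (-8)) ^ i := by
        rw [e1, mul_pow, mul_pow, e2]
        ring

theorem bc {g : ℕ → ℝ} {c : ℕ → ℂ} {w : ℕ → Ω → ℝ} (hm : ∀ n, Measurable (w n)) (hi : iIndepFun w P)
    {lam : ℕ → ℕ → ℝ} {C1 C2 v : ℝ} (hC1 : 0 < C1) (hv : 0 < v) (hC2 : 1 ≤ C2)
    (h1 : ∀ i : ℕ, ∑ n ∈ Dk g i, ‖c n‖ ^ 2 ≤ C1 * v ^ i)
    (h2 : ∀ i : ℕ, ((Dk g i).card : ℝ) ≤ C2 * 4 ^ i) (hl0 : ∀ j i, 0 ≤ lam j i)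
    (hl : ∀ j i : ℕ, 2 * (C1 * v ^ i) * (2 * j + 8 * i) ≤ lam j i ^ 2) :
    ∀ᵐ ω ∂P, ∃ J : ℕ, ∀ j ≥ J, ∀ i, ω ∉ Fv P g c w lam j i := by
  have he2 : 2 * Real.exp (-2) < 1 := by
    have h3 : (2 : ℝ) < Real.exp 2 := by
      have := Real.add_one_lt_exp (show (2 : ℝ) ≠ 0 by norm_num)
      linarith
    rw [Real.exp_neg, ← div_eq_mul_inv, div_lt_one (Real.exp_pos _)]
    exact h3
  have he8 : 256 * Real.exp (-8) < 1 := by
    have h3 : (2.7 : ℝ) < Real.exp 1 := by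
      have := Real.exp_one_gt_d9
      linarith
    have h4 : (2.7 : ℝ) ^ 8 < Real.exp 1 ^ 8 := pow_lt_pow_left₀ h3 (by norm_num) (by norm_num)
    rw [← Real.exp_nat_mul] at h4
    have h5 : ((8 : ℕ) : ℝ) * 1 = 8 := by norm_num
    rw [h5] at h4
    have h6 : (256 : ℝ) < Real.exp 8 := lt_trans (by norm_num) h4
    rw [Real.exp_neg, ← div_eq_mul_inv, div_lt_one (Real.exp_pos _)]
    exact h6
  have hs : Summable fun x : ℕ × ℕ =>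
      4 * C2 ^ 2 * (2 * Real.exp (-2)) ^ x.1 * (256 * Real.exp (-8)) ^ x.2 := by
    have s1 := summable_geometric_of_lt_one (by positivity) he2
    have s2 := summable_geometric_of_lt_one (by positivity) he8
    have s3 := (s1.mul_of_nonneg s2 (fun _ => by positivity) (fun _ => by positivity)).mul_left (4 * C2 ^ 2)
    refine s3.congr fun x => ?_
    ring
  have hfin : ∑' x : ℕ × ℕ, P (Fv P g c w lam x.1 x.2) ≠ ⊤ := by
    refine ne_top_of_le_ne_top hs.tsum_ofReal_ne_top (ENNReal.tsum_le_tsum fun x => ?_)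
    exact meas_Fv hm hi hC1 hv hC2 h1 h2 hl0 hl x.1 x.2
  filter_upwards [ae_finite_setOfPred_mem hfin] with ω hω
  obtain ⟨J, hJ⟩ := (hω.image Prod.fst).bddAbove
  refine ⟨J + 1, fun j hj i hmem => ?_⟩
  have : j ≤ J := hJ ⟨(j, i), hmem, rfl⟩
  omega

end Pool.Agent.Helper11.DO
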