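import Pool.Agent.Helper11.DO.Asm

/-!
# Displaced ordinates (MP_a499ba_nt): an additional constant

Author: helper11.
-/

set_option autoImplicit false

namespace Pool.Agent.Helper11.DO

open Filter Pool.Agent.Helper51.DO

theorem const_tendsto (a : ℝ) : Tendsto (fun y : ℝ => ((a / ll y : ℝ) : EReal)) atTop (nhds 0) := by
  have h : Tendsto (fun y : ℝ => a / ll y) atTop (nhds 0) := tendsto_const_nhds.div_atTop ll_tendsto
  exact (continuous_coe_real_ereal.tendsto 0).comp h

/-- A constant does not change the limes superior. -/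
theorem limsup_const (u : ℝ → ℝ) (a : ℝ) :
    limsup (fun y : ℝ => (((a + u y) / ll y : ℝ) : EReal)) atTop =
      limsup (fun y : ℝ => ((u y / ll y : ℝ) : EReal)) atTop := by
  have key : ∀ (u : ℝ → ℝ) (a : ℝ), limsup (fun y : ℝ => (((a + u y) / ll y : ℝ) : EReal)) atTop ≤
      limsup (fun y : ℝ => ((u y / ll y : ℝ) : EReal)) atTop := by
    intro u a
    have h0 : limsup (fun y : ℝ => ((a / ll y : ℝ) : EReal)) atTop = 0 := (const_tendsto a).limsup_eq
    have h1 : (fun y : ℝ => (((a + u y) / ll y : ℝ) : EReal)) =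
        (fun y : ℝ => ((a / ll y : ℝ) : EReal)) + fun y : ℝ => ((u y / ll y : ℝ) : EReal) := by
      funext y
      rw [Pi.add_apply, add_div, EReal.coe_add]
    rw [h1]
    refine (EReal.limsup_add_le (Or.inl (by rw [h0]; exact EReal.zero_ne_bot))
      (Or.inl (by rw [h0]; exact EReal.zero_ne_top))).trans ?_
    rw [h0, zero_add]
  refine le_antisymm (key u a) ?_
  have h2 := key (fun y => a + u y) (-a)
  have h3 : (fun y : ℝ => (((-a + (a + u y)) / ll y : ℝ) : EReal)) = fun y : ℝ => ((u y / ll y : ℝ) : EReal) := by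
    funext y
    rw [neg_add_cancel_left]
  rw [h3] at h2
  exact h2

/-- A constant does not change the limes inferior. -/
theorem liminf_const (u : ℝ → ℝ) (a : ℝ) :
    liminf (fun y : ℝ => (((a + u y) / ll y : ℝ) : EReal)) atTop =
      liminf (fun y : ℝ => ((u y / ll y : ℝ) : EReal)) atTop := by
  have h := limsup_const (fun y => -u y) (-a)
  have h1 : (fun y : ℝ => (((-a + -u y) / ll y : ℝ) : EReal)) =
      -fun y : ℝ => (((a + u y) / ll y : ℝ) : EReal) := by
    funext y
    rw [Pi.neg_apply, ← EReal.coe_neg]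
    congr 1
    ring
  have h2 : (fun y : ℝ => ((-u y / ll y : ℝ) : EReal)) = -fun y : ℝ => ((u y / ll y : ℝ) : EReal) := by
    funext y
    rw [Pi.neg_apply, ← EReal.coe_neg, neg_div]
  rw [h1, h2, EReal.limsup_neg, EReal.limsup_neg] at h
  rw [← neg_neg (liminf (fun y : ℝ => (((a + u y) / ll y : ℝ) : EReal)) atTop), h, neg_neg]

end Pool.Agent.Helper11.DO
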