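import Pool.Agent.Helper11.DO.Bl

/-!
# Displaced ordinates (MP_a499ba_nt): outside the exceptional events

Author: helper11.
-/

set_option autoImplicit false

namespace Pool.Agent.Helper11.DO

open MeasureTheory ProbabilityTheory Filter Finset Pool.Agent.Helper51.DO

variable {Ω : Type*} [MeasurableSpace Ω] {P : Measure Ω} [IsProbabilityMeasure P]

open Classical in
/-- The ordinates in `(T, b]`. -/
noncomputable def wd (g : ℕ → ℝ) (T b : ℝ) : Finset ℕ := (upto g b).filter fun n => T < g n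

theorem mem_wd {g : ℕ → ℝ} (hf : ∀ T, {n | g n ≤ T}.Finite) {T b : ℝ} {n : ℕ} :
    n ∈ wd g T b ↔ g n ≤ b ∧ T < g n := by
  classical
  unfold wd
  rw [mem_filter, mem_upto (hf _)]

/-- A nonempty piece of a block. -/
theorem piece {g : ℕ → ℝ} (hf : ∀ T, {n | g n ≤ T}.Finite) {T b : ℝ} (hT : 1 ≤ T) {i n₀ : ℕ}
    (hn₀ : n₀ ∈ wd g T b) (hi : blk g n₀ = i) :
    ∃ p ∈ Dk g i, ∃ q ∈ Dk g i, (wd g T b).filter (fun n => blk g n = i) = sub g i p q := by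
  classical
  set S := (wd g T b).filter (fun n => blk g n = i) with hS
  have hne : S.Nonempty := ⟨n₀, mem_filter.2 ⟨hn₀, hi⟩⟩
  have hSD : ∀ n ∈ S, n ∈ Dk g i ∧ T < g n ∧ g n ≤ b ∧ g n < (2 : ℝ) ^ (i + 1) := by
    intro n hn
    obtain ⟨h1, h2⟩ := mem_filter.1 hn
    obtain ⟨h3, h4⟩ := (mem_wd hf).1 h1
    have h5 := lt_blk g n
    have h6 : (2 : ℝ) ^ blk g n ≤ g n := blk_le (by linarith)
    rw [h2] at h5 h6
    exact ⟨(mem_Dk hf).2 ⟨h5.le, h6⟩, h4, h3, h5⟩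
  obtain ⟨p, hp, hpmin⟩ := exists_min_image S g hne
  obtain ⟨q, hq, hqmax⟩ := exists_max_image S g hne
  refine ⟨p, (hSD p hp).1, q, (hSD q hq).1, ?_⟩
  ext n
  unfold sub
  rw [mem_filter (s := Dk g i)]
  constructor
  · intro hn
    exact ⟨(hSD n hn).1, hpmin n hn, hqmax n hn⟩
  · rintro ⟨h1, h2, h3⟩
    rw [hS, mem_filter, mem_wd hf]
    refine ⟨⟨h3.trans (hSD q hq).2.2.1, (hSD p hp).2.1.trans_le h2⟩, ?_⟩
    exact blk_eq ((mem_Dk hf).1 h1).2 (h3.trans_lt (hSD q hq).2.2.2)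

/-- A nonempty piece of a block, all `y`. -/
theorem piece_bd {g : ℕ → ℝ} {c : ℕ → ℂ} {w : ℕ → Ω → ℝ} (hf : ∀ T, {n | g n ≤ T}.Finite)
    (hm : ∀ n, Measurable (w n)) {δ : ℝ} (hδ : 0 ≤ δ) (hb : ∀ n ω, |w n ω| ≤ δ) {lam : ℕ → ℕ → ℝ} {j i : ℕ}
    {ω : Ω} (hω : ω ∉ Fv P g c w lam j i) {p q : ℕ} (hp : p ∈ Dk g i) (hq : q ∈ Dk g i) {y : ℝ}
    (hy1 : 2 ^ j ≤ y) (hy2 : y ≤ 2 ^ (j + 1)) :
    |∑ n ∈ sub g i p q, ct P (w n) (g n) (c n) y ω| ≤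
      lam j i + 2 * (2 ^ (i + 1) + δ) * (∑ n ∈ Dk g i, ‖c n‖) / 16 ^ i := by
  classical
  have h16 : (0 : ℝ) < 16 ^ i := by positivity
  set k := ⌊(y - 2 ^ j) * 16 ^ i⌋₊ with hk
  have hnn : 0 ≤ (y - 2 ^ j) * 16 ^ i := mul_nonneg (by linarith) h16.le
  have hk1 : (k : ℝ) ≤ (y - 2 ^ j) * 16 ^ i := Nat.floor_le hnn
  have hk2 : (y - 2 ^ j) * 16 ^ i < k + 1 := Nat.lt_floor_add_one _
  have hk3 : k ∈ range (2 ^ j * 16 ^ i + 1) := by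
    rw [mem_range, Nat.lt_succ_iff]
    have h1 : (k : ℝ) ≤ ((2 ^ j * 16 ^ i : ℕ) : ℝ) := by
      refine hk1.trans ?_
      push_cast
      refine mul_le_mul_of_nonneg_right ?_ h16.le
      rw [pow_succ] at hy2
      linarith
    exact_mod_cast h1
  have hdist : |y - (2 ^ j + k / 16 ^ i)| ≤ 1 / 16 ^ i := by
    have e : y - (2 ^ j + k / 16 ^ i) = ((y - 2 ^ j) * 16 ^ i - k) / 16 ^ i := by
      field_simp
      ring
    rw [e, abs_div, abs_of_pos h16, abs_of_nonneg (by linarith)]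
    exact div_le_div_of_nonneg_right (by linarith) h16.le
  have hlam : |∑ n ∈ sub g i p q, ct P (w n) (g n) (c n) (2 ^ j + k / 16 ^ i) ω| < lam j i := by
    by_contra hcon
    refine hω ?_
    unfold Fv
    simp only [Set.mem_iUnion]
    exact ⟨p, hp, q, hq, k, hk3, not_lt.1 hcon⟩
  have hG : ∀ n ∈ sub g i p q, |g n| ≤ (2 : ℝ) ^ (i + 1) := by
    intro n hn
    have h1 := (mem_Dk hf).1 (mem_of_mem_filter _ hn)
    have h2 : (0 : ℝ) < 2 ^ i := by positivity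
    rw [abs_of_nonneg (h2.le.trans h1.2)]
    exact h1.1
  have h1 := ct_lip (P := P) hm hb g c y (2 ^ j + k / 16 ^ i) (sub g i p q) hG ω
  have h2 : ∑ n ∈ sub g i p q, ‖c n‖ ≤ ∑ n ∈ Dk g i, ‖c n‖ :=
    sum_le_sum_of_subset_of_nonneg (filter_subset _ _) fun n _ _ => norm_nonneg _
  have h3 : (0 : ℝ) ≤ 2 ^ (i + 1) + δ := by positivity
  have h4 : |∑ n ∈ sub g i p q, ct P (w n) (g n) (c n) y ω -
      ∑ n ∈ sub g i p q, ct P (w n) (g n) (c n) (2 ^ j + k / 16 ^ i) ω| ≤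
      2 * (2 ^ (i + 1) + δ) * (∑ n ∈ Dk g i, ‖c n‖) / 16 ^ i := by
    have e3 : 2 * (2 ^ (i + 1) + δ) * (∑ n ∈ Dk g i, ‖c n‖) / 16 ^ i =
        2 * (2 ^ (i + 1) + δ) * (∑ n ∈ Dk g i, ‖c n‖) * (1 / 16 ^ i) := by ring
    rw [e3]
    refine h1.trans (mul_le_mul (mul_le_mul_of_nonneg_left h2 (by positivity)) hdist (abs_nonneg _) ?_)
    exact mul_nonneg (by positivity) (sum_nonneg fun n _ => norm_nonneg _)
  have h5 := abs_sub_abs_le_abs_sub (∑ n ∈ sub g i p q, ct P (w n) (g n) (c n) y ω)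
    (∑ n ∈ sub g i p q, ct P (w n) (g n) (c n) (2 ^ j + k / 16 ^ i) ω)
  linarith

/-- All the blocks. -/
theorem det {g : ℕ → ℝ} {c : ℕ → ℂ} {w : ℕ → Ω → ℝ} (hf : ∀ T, {n | g n ≤ T}.Finite)
    (hm : ∀ n, Measurable (w n)) {δ : ℝ} (hδ : 0 ≤ δ) (hb : ∀ n ω, |w n ω| ≤ δ) {lam : ℕ → ℕ → ℝ} {j : ℕ}
    {ω : Ω} (hω : ∀ i, ω ∉ Fv P g c w lam j i) {y : ℝ} (hy1 : 2 ^ j ≤ y) (hy2 : y ≤ 2 ^ (j + 1))
    {κ ρ : ℝ} (hρ0 : 0 < ρ) (hρ1 : ρ < 1) (hκ : 0 ≤ κ)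
    (hlam : ∀ i : ℕ, lam j i + 2 * (2 ^ (i + 1) + δ) * (∑ n ∈ Dk g i, ‖c n‖) / 16 ^ i ≤ κ * ρ ^ i)
    {T b : ℝ} (hT : 1 ≤ T) {i₁ : ℕ} (hi : ∀ n ∈ wd g T b, i₁ ≤ blk g n) :
    |∑ n ∈ wd g T b, ct P (w n) (g n) (c n) y ω| ≤ κ * (ρ ^ i₁ / (1 - ρ)) := by
  classical
  set t := (wd g T b).image (blk g) with ht
  have h1 : ∑ i ∈ t, ∑ n ∈ (wd g T b).filter (fun n => blk g n = i), ct P (w n) (g n) (c n) y ω =
      ∑ n ∈ wd g T b, ct P (w n) (g n) (c n) y ω :=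
    sum_fiberwise_of_maps_to (fun n hn => mem_image_of_mem _ hn) _
  rw [← h1]
  refine (abs_sum_le_sum_abs _ _).trans ?_
  have h2 : ∀ i ∈ t, |∑ n ∈ (wd g T b).filter (fun n => blk g n = i), ct P (w n) (g n) (c n) y ω| ≤
      κ * ρ ^ i := by
    intro i hi'
    obtain ⟨n₀, hn₀, hni⟩ := mem_image.1 hi'
    obtain ⟨p, hp, q, hq, hpq⟩ := piece hf hT hn₀ hni
    rw [hpq]
    exact (piece_bd hf hm hδ hb (hω i) hp hq hy1 hy2).trans (hlam i)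
  refine (sum_le_sum h2).trans ?_
  rw [← mul_sum]
  refine mul_le_mul_of_nonneg_left ?_ hκ
  have h3 : t ⊆ Ico i₁ (t.sup id + 1) := by
    intro i hi'
    obtain ⟨n₀, hn₀, hni⟩ := mem_image.1 hi'
    rw [mem_Ico]
    refine ⟨hni ▸ hi n₀ hn₀, Nat.lt_succ_of_le (le_sup (f := id) hi')⟩
  refine (sum_le_sum_of_subset_of_nonneg h3 fun i _ _ => pow_nonneg hρ0.le i).trans ?_
  exact geom_sum_Ico_le_of_lt_one hρ0.le hρ1

end Pool.Agent.Helper11.DO
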