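import Pool.Agent.Helper11.DO.Asm

/-!
# Displaced ordinates (MP_a499ba_nt): exceptional displacements

For the same data there are displacements in `[0, δ]` such that the displaced ordinates are linearly independent over the
rational numbers, while the displaced function has the limits `-∞` and `∞` relative to `(log log y)^(5/4)`.
Author: helper11 (idea of helper51).
-/

set_option autoImplicit false

namespace Pool.Agent.Helper11.DO

open Filter Finset Pool.Agent.Helper51.DO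

/-- One step of the nested intervals. -/
theorem step {a b y φ q : ℝ} (hy : 0 < y) (hab : 14 * Real.pi / 3 ≤ (b - a) * y) :
    ∃ I : ℝ × ℝ, a ≤ I.1 ∧ I.2 ≤ b ∧ I.1 < I.2 ∧ (I.2 - I.1) * y = 2 * Real.pi / 3 ∧
      q ∉ Set.Icc I.1 I.2 ∧ ∀ t ∈ Set.Icc I.1 I.2, 1 / 2 ≤ Real.cos (t * y + φ) := by
  have hπ := Real.pi_pos
  set m : ℤ := ⌈(a * y + φ + Real.pi / 3) / (2 * Real.pi)⌉ with hm
  have h1 : a * y + φ + Real.pi / 3 ≤ m * (2 * Real.pi) := by
    rw [← div_le_iff₀ (by positivity)]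
    exact Int.le_ceil _
  have h2 : m * (2 * Real.pi) < a * y + φ + Real.pi / 3 + 2 * Real.pi := by
    have h3 := Int.ceil_lt_add_one ((a * y + φ + Real.pi / 3) / (2 * Real.pi))
    have h4 : ((m : ℝ) - 1) < (a * y + φ + Real.pi / 3) / (2 * Real.pi) := by
      rw [hm]
      linarith
    rw [lt_div_iff₀ (by positivity)] at h4
    linarith
  -- the interval with number s
  have key : ∀ s : ℤ, (s = m ∨ s = m + 1) → q ∉ Set.Icc ((s * (2 * Real.pi) - φ - Real.pi / 3) / y)
      ((s * (2 * Real.pi) - φ + Real.pi / 3) / y) →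
      ∃ I : ℝ × ℝ, a ≤ I.1 ∧ I.2 ≤ b ∧ I.1 < I.2 ∧ (I.2 - I.1) * y = 2 * Real.pi / 3 ∧
        q ∉ Set.Icc I.1 I.2 ∧ ∀ t ∈ Set.Icc I.1 I.2, 1 / 2 ≤ Real.cos (t * y + φ) := by
    intro s hs hq
    have hs1 : (m : ℝ) * (2 * Real.pi) ≤ s * (2 * Real.pi) ∧
        s * (2 * Real.pi) ≤ m * (2 * Real.pi) + 2 * Real.pi := by
      rcases hs with rfl | rfl
      · exact ⟨le_rfl, by linarith⟩
      · push_cast
        constructor <;> linarith
    refine ⟨((s * (2 * Real.pi) - φ - Real.pi / 3) / y, (s * (2 * Real.pi) - φ + Real.pi / 3) / y),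
      ?_, ?_, ?_, ?_, hq, ?_⟩
    · show a ≤ (s * (2 * Real.pi) - φ - Real.pi / 3) / y
      rw [le_div_iff₀ hy]
      linarith
    · show (s * (2 * Real.pi) - φ + Real.pi / 3) / y ≤ b
      rw [div_le_iff₀ hy]
      linarith
    · show (s * (2 * Real.pi) - φ - Real.pi / 3) / y < (s * (2 * Real.pi) - φ + Real.pi / 3) / y
      exact div_lt_div_of_pos_right (by linarith) hy
    · show ((s * (2 * Real.pi) - φ + Real.pi / 3) / y - (s * (2 * Real.pi) - φ - Real.pi / 3) / y) * y = _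
      field_simp
      ring
    · rintro t ⟨ht1, ht2⟩
      have ht1' : (s * (2 * Real.pi) - φ - Real.pi / 3) / y ≤ t := ht1
      have ht2' : t ≤ (s * (2 * Real.pi) - φ + Real.pi / 3) / y := ht2
      rw [div_le_iff₀ hy] at ht1'
      rw [le_div_iff₀ hy] at ht2'
      have e : Real.cos (t * y + φ) = Real.cos (t * y + φ - s * (2 * Real.pi)) :=
        (Real.cos_sub_int_mul_two_pi _ _).symm
      rw [e, ← Real.cos_abs, ← Real.cos_pi_div_three]
      refine Real.cos_le_cos_of_nonneg_of_le_pi (abs_nonneg _) (by linarith) ?_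
      rw [abs_le]
      constructor <;> linarith
  by_cases hq : q ∈ Set.Icc ((m * (2 * Real.pi) - φ - Real.pi / 3) / y)
      ((m * (2 * Real.pi) - φ + Real.pi / 3) / y)
  · refine key (m + 1) (Or.inr rfl) ?_
    rintro ⟨h3, -⟩
    have h4 := hq.2
    rw [div_le_iff₀ hy] at h3
    rw [le_div_iff₀ hy] at h4
    push_cast at h3
    linarith
  · exact key m (Or.inl rfl) hq

/-- A point avoiding a countable set, with prescribed phases. -/
theorem cantor {δ : ℝ} (hδ : 0 < δ) {y φ q : ℕ → ℝ} (hy : ∀ j, 0 < y j) (h0 : 14 * Real.pi / 3 ≤ δ * y 0)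
    (h7 : ∀ j, 7 * y j ≤ y (j + 1)) :
    ∃ t : ℝ, 0 ≤ t ∧ t ≤ δ ∧ (∀ j, t ≠ q j) ∧ ∀ j, 1 / 2 ≤ Real.cos (t * y j + φ j) := by
  have hπ := Real.pi_pos
  have hstep : ∀ (j : ℕ) (I : ℝ × ℝ), 14 * Real.pi / 3 ≤ (I.2 - I.1) * y j →
      ∃ I' : ℝ × ℝ, 14 * Real.pi / 3 ≤ (I'.2 - I'.1) * y (j + 1) ∧ I.1 ≤ I'.1 ∧ I'.2 ≤ I.2 ∧ I'.1 < I'.2 ∧
        q j ∉ Set.Icc I'.1 I'.2 ∧ ∀ t ∈ Set.Icc I'.1 I'.2, 1 / 2 ≤ Real.cos (t * y j + φ j) := by
    intro j I hI
    obtain ⟨I', h1, h2, h3, h4, h5, h6⟩ := step (a := I.1) (b := I.2) (φ := φ j) (q := q j) (hy j) hI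
    refine ⟨I', ?_, h1, h2, h3, h5, h6⟩
    have h8 : (I'.2 - I'.1) * (7 * y j) ≤ (I'.2 - I'.1) * y (j + 1) :=
      mul_le_mul_of_nonneg_left (h7 j) (by linarith)
    nlinarith
  choose F hF using hstep
  let s : (j : ℕ) → {I : ℝ × ℝ // 14 * Real.pi / 3 ≤ (I.2 - I.1) * y j} := fun j =>
    Nat.rec (motive := fun j => {I : ℝ × ℝ // 14 * Real.pi / 3 ≤ (I.2 - I.1) * y j})
      ⟨(0, δ), by simpa using h0⟩ (fun j I => ⟨F j I.1 I.2, (hF j I.1 I.2).1⟩) j
  have hs : ∀ j, (s (j + 1)).1 = F j (s j).1 (s j).2 := fun j => rfl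
  have hnest : ∀ j, (s j).1.1 ≤ (s (j + 1)).1.1 ∧ (s (j + 1)).1.2 ≤ (s j).1.2 ∧
      (s (j + 1)).1.1 < (s (j + 1)).1.2 ∧ q j ∉ Set.Icc (s (j + 1)).1.1 (s (j + 1)).1.2 ∧
      ∀ t ∈ Set.Icc (s (j + 1)).1.1 (s (j + 1)).1.2, 1 / 2 ≤ Real.cos (t * y j + φ j) := by
    intro j
    rw [hs]
    exact (hF j (s j).1 (s j).2).2
  have hne : (⋂ j, Set.Icc (s j).1.1 (s j).1.2).Nonempty := by
    refine IsCompact.nonempty_iInter_of_sequence_nonempty_isCompact_isClosed _ (fun j => ?_) (fun j => ?_)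
      isCompact_Icc fun j => isClosed_Icc
    · exact Set.Icc_subset_Icc (hnest j).1 (hnest j).2.1
    · cases j with
      | zero => exact ⟨0, le_rfl, hδ.le⟩
      | succ j => exact ⟨_, le_rfl, (hnest j).2.2.1.le⟩
  obtain ⟨t, ht⟩ := hne
  rw [Set.mem_iInter] at ht
  refine ⟨t, (ht 0).1, (ht 0).2, fun j hj => ?_, fun j => (hnest j).2.2.2.2 t (ht (j + 1))⟩
  exact (hnest j).2.2.2.1 (hj ▸ ht (j + 1))

theorem countable_span (n : ℕ) (v : ℕ → ℝ) : (Submodule.span ℚ (v '' Set.Iio n) : Set ℝ).Countable := by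
  have h1 : v '' Set.Iio n = Set.range (fun i : Fin n => v i) := by
    ext x
    constructor
    · rintro ⟨m, hm, rfl⟩
      exact ⟨⟨m, hm⟩, rfl⟩
    · rintro ⟨i, rfl⟩
      exact ⟨i, i.2, rfl⟩
  have h2 : (Submodule.span ℚ (v '' Set.Iio n) : Set ℝ) ⊆
      Set.range (fun f : Fin n → ℚ => ∑ i, f i • v i) := by
    intro x hx
    rw [h1] at hx
    obtain ⟨f, hf⟩ := (Submodule.mem_span_range_iff_exists_fun ℚ).1 hx
    exact ⟨f, hf⟩
  exact (Set.countable_range _).mono h2

/-- A choice which depends on the earlier ones. -/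
noncomputable def pick (E : (n : ℕ) → ((m : ℕ) → m < n → ℝ) → ℝ) : ℕ → ℝ
  | n => E n (fun m _ => pick E m)

/-- Linear independence by successive choice. -/
theorem exists_indep {A : ℕ → ℝ → Prop} (g : ℕ → ℝ)
    (hA : ∀ n (q : ℕ → ℝ), ∃ t, A n t ∧ ∀ j, t ≠ q j) :
    ∃ w : ℕ → ℝ, (∀ n, A n (w n)) ∧ LinearIndependent ℚ (fun n => g n + w n) := by
  classical
  have h1 : ∀ (n : ℕ) (p : (m : ℕ) → m < n → ℝ), ∃ t, A n t ∧
      g n + t ∉ Submodule.span ℚ ((fun m => g m + if h : m < n then p m h else 0) '' Set.Iio n) := by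
    intro n p
    have hc := countable_span n (fun m => g m + if h : m < n then p m h else 0)
    obtain ⟨r, hr⟩ := hc.exists_eq_range ⟨0, Submodule.zero_mem _⟩
    obtain ⟨t, ht, htq⟩ := hA n (fun j => r j - g n)
    refine ⟨t, ht, fun hmem => ?_⟩
    have h2 : g n + t ∈ Set.range r := by
      rw [← hr]
      exact hmem
    obtain ⟨j, hj⟩ := h2
    exact htq j (by linarith)
  choose E hE using h1
  have hp : ∀ n, pick E n = E n (fun m _ => pick E m) := by
    intro n
    conv_lhs => unfold pick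
  refine ⟨pick E, fun n => ?_, ?_⟩
  · rw [hp]
    exact (hE n _).1
  · have h2 : ∀ n, g n + pick E n ∉ Submodule.span ℚ ((fun m => g m + pick E m) '' Set.Iio n) := by
      intro n
      have h3 := (hE n (fun m _ => pick E m)).2
      rw [← hp] at h3
      have h4 : ((fun m => g m + if _h : m < n then pick E m else 0) '' Set.Iio n) =
          ((fun m => g m + pick E m) '' Set.Iio n) := by
        refine Set.image_congr fun m hm => ?_
        have hm' : m < n := hm
        simp only [hm', dite_true]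
      rw [h4] at h3
      exact h3
    have h3 : ∀ n, LinearIndepOn ℚ (fun m => g m + pick E m) (Set.Iio n) := by
      intro n
      induction n with
      | zero =>
        have : (Set.Iio 0 : Set ℕ) = ∅ := by
          ext x
          simp
        rw [this]
        exact linearIndepOn_empty _ _
      | succ n ih =>
        have : (Set.Iio (n + 1) : Set ℕ) = insert n (Set.Iio n) := by
          ext x
          simp only [Set.mem_Iio, Set.mem_insert_iff]
          omega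
        rw [this, linearIndepOn_insert (by simp)]
        exact ⟨ih, h2 n⟩
    rw [linearIndependent_iff_finset_linearIndependent]
    intro s
    have h4 : (s : Set ℕ) ⊆ Set.Iio (s.sup id + 1) := by
      intro x hx
      have := le_sup (f := id) (Finset.mem_coe.1 hx)
      simp only [id_eq] at this
      exact Nat.lt_succ_of_le this
    exact (h3 (s.sup id + 1)).mono h4

/-- The sequence of points. -/
theorem points {g : ℕ → ℝ} {c : ℕ → ℂ} (hB : 0 < Bd g c) (a : ℝ) : ∃ (s : ℝ) (y : ℕ → ℝ), 0 < s ∧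
    a ≤ y 0 ∧ (∀ k, 0 < y k) ∧ (∀ k, 7 * y k ≤ y (k + 1)) ∧ Tendsto y atTop atTop ∧
    ∀ k, s * (2 * y k) ^ ((5 : ℝ) / 4) ≤ height g c (Real.exp (2 * y k)) := by
  obtain ⟨s, hs1, hs2⟩ := EReal.lt_iff_exists_real_btwn.1 hB
  have hs0 : 0 < s := by exact_mod_cast hs1
  have h1 : ∃ᶠ T : ℝ in atTop, (s : EReal) < ((height g c T / Real.log T ^ ((5 : ℝ) / 4) : ℝ) : EReal) :=
    frequently_lt_of_lt_limsup (by isBoundedDefault) hs2
  have h2 : ∀ b : ℝ, ∃ y : ℝ, b ≤ y ∧ s * (2 * y) ^ ((5 : ℝ) / 4) ≤ height g c (Real.exp (2 * y)) := by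
    intro b
    obtain ⟨T, hT1, hT2⟩ := (frequently_atTop.1 h1) (max (Real.exp (2 * b)) (Real.exp 2))
    have hTe : Real.exp 2 ≤ T := (le_max_right _ _).trans hT1
    have hTb : Real.exp (2 * b) ≤ T := (le_max_left _ _).trans hT1
    have hT0 : 0 < T := (Real.exp_pos _).trans_le hTe
    have hl : 2 ≤ Real.log T := by
      rw [← Real.log_exp 2]
      exact Real.log_le_log (Real.exp_pos _) hTe
    have hlb : 2 * b ≤ Real.log T := by
      rw [← Real.log_exp (2 * b)]
      exact Real.log_le_log (Real.exp_pos _) hTb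
    have h3 : s < height g c T / Real.log T ^ ((5 : ℝ) / 4) := by exact_mod_cast hT2
    rw [lt_div_iff₀ (Real.rpow_pos_of_pos (by linarith) _)] at h3
    refine ⟨Real.log T / 2, by linarith, ?_⟩
    have e : 2 * (Real.log T / 2) = Real.log T := by ring
    rw [e, Real.exp_log hT0]
    exact h3.le
  choose τ hτ1 hτ2 using h2
  let y : ℕ → ℝ := fun k => Nat.rec (motive := fun _ => ℝ) (τ (max a 1)) (fun k y => τ (max (7 * y) (k + 1))) k
  have hy : ∀ k, y (k + 1) = τ (max (7 * y k) (k + 1)) := fun k => rfl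
  have hk : ∀ k : ℕ, (k : ℝ) ≤ y k := by
    intro k
    cases k with
    | zero => exact le_trans (by push_cast; exact zero_le_one.trans (le_max_right a 1)) (hτ1 _)
    | succ k =>
      rw [hy]
      push_cast
      exact (le_max_right _ _).trans (hτ1 _)
  refine ⟨s, y, hs0, (le_max_left _ _).trans (hτ1 _), ?_, ?_, tendsto_atTop_mono hk tendsto_natCast_atTop_atTop, ?_⟩
  · intro k
    cases k with
    | zero => exact lt_of_lt_of_le one_pos ((le_max_right a 1).trans (hτ1 _))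
    | succ k =>
      refine lt_of_lt_of_le ?_ (hk (k + 1))
      positivity
  · intro k
    rw [hy]
    exact (le_max_left _ _).trans (hτ1 _)
  · intro k
    cases k with
    | zero => exact hτ2 _
    | succ k =>
      rw [hy]
      exact hτ2 _

theorem re_eq (c : ℂ) (x : ℝ) : (c * Complex.exp ((x : ℂ) * Complex.I)).re = ‖c‖ * Real.cos (x + c.arg) := by
  have h : c * Complex.exp ((x : ℂ) * Complex.I) = ‖c‖ * Complex.exp (((x + c.arg : ℝ) : ℂ) * Complex.I) := by
    conv_lhs => rw [← Complex.norm_mul_exp_arg_mul_I c]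
    rw [mul_assoc, ← Complex.exp_add]
    congr 2
    push_cast
    ring
  rw [h, Complex.re_ofReal_mul, Complex.exp_ofReal_mul_I_re]

theorem cos_sub_nat_pi (x : ℝ) (k : ℕ) : Real.cos (x - k * Real.pi) = (-1) ^ k * Real.cos x :=
  Real.cos_sub_nat_mul_pi x k

/-- Comparison of the rates. -/
theorem rate {s z : ℝ} (hs : 0 < s) : ∀ᶠ y : ℝ in atTop, 0 < ll y ∧ z * ll y ≤ s * (2 * y) ^ ((5 : ℝ) / 4) / 2 := by
  have h1 : Tendsto (fun y : ℝ => |z| * (Real.log y / y) ^ ((5 : ℝ) / 4)) atTop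
      (nhds (|z| * 0 ^ ((5 : ℝ) / 4))) := by
    refine Tendsto.const_mul _ (Tendsto.rpow_const ?_ (Or.inr (by norm_num)))
    have := Real.isLittleO_log_id_atTop.tendsto_div_nhds_zero
    exact this
  rw [Real.zero_rpow (by norm_num), mul_zero] at h1
  filter_upwards [h1.eventually (ge_mem_nhds (show (0 : ℝ) < s / 2 by positivity)),
    ll_tendsto.eventually_gt_atTop 0, eventually_gt_atTop (0 : ℝ),
    Real.tendsto_log_atTop.eventually_gt_atTop 0,
    (Real.tendsto_log_atTop.comp Real.tendsto_log_atTop).eventually_gt_atTop 0] with y h2 h3 h4 h5 h6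
  refine ⟨h3, ?_⟩
  simp only [Function.comp_apply] at h6
  have h7 : ll y ≤ Real.log y ^ ((5 : ℝ) / 4) := by
    refine Real.rpow_le_rpow h6.le ?_ (by norm_num)
    have := Real.add_one_le_exp (Real.log (Real.log y))
    rw [Real.exp_log h5] at this
    linarith
  have h8 : 0 < y ^ ((5 : ℝ) / 4) := Real.rpow_pos_of_pos h4 _
  rw [Real.div_rpow h5.le h4.le, mul_div_assoc', div_le_iff₀ h8] at h2
  have h9 : y ^ ((5 : ℝ) / 4) ≤ (2 * y) ^ ((5 : ℝ) / 4) := Real.rpow_le_rpow h4.le (by linarith) (by norm_num)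
  calc z * ll y ≤ |z| * ll y := mul_le_mul_of_nonneg_right (le_abs_self z) h3.le
    _ ≤ |z| * Real.log y ^ ((5 : ℝ) / 4) := mul_le_mul_of_nonneg_left h7 (abs_nonneg z)
    _ ≤ s / 2 * y ^ ((5 : ℝ) / 4) := h2
    _ ≤ s / 2 * (2 * y) ^ ((5 : ℝ) / 4) := mul_le_mul_of_nonneg_left h9 (by positivity)
    _ = _ := by ring

/-- Exceptional displacements. -/
theorem exceptional {g : ℕ → ℝ} {c : ℕ → ℂ} (h : Data g c) (hB : 0 < Bd g c) {δ : ℝ} (hδ : 0 < δ) :
    ∃ w : ℕ → ℝ, (∀ n, 0 ≤ w n ∧ w n ≤ δ) ∧ LinearIndependent ℚ (fun n => g n + w n) ∧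
      limsup (fun y : ℝ => ((osc g c w y / ll y : ℝ) : EReal)) atTop = ⊤ ∧
      liminf (fun y : ℝ => ((osc g c w y / ll y : ℝ) : EReal)) atTop = ⊥ := by
  classical
  have hπ := Real.pi_pos
  obtain ⟨s, y, hs, hy0, hypos, hy7, hyt, hyB⟩ := points hB (14 * Real.pi / 3 / δ)
  have hδ0 : 14 * Real.pi / 3 ≤ δ * y 0 := by
    rw [div_le_iff₀ hδ] at hy0
    linarith
  have hmono : ∀ k, y 0 ≤ y k := by
    intro k
    induction k with
    | zero => exact le_rfl
    | succ k ih => linarith [hy7 k, hypos k]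
  -- the allowed displacements
  have hA : ∀ n (q : ℕ → ℝ), ∃ t, ((0 ≤ t ∧ t ≤ δ) ∧ ∀ k, g n ≤ Real.exp (2 * y k) →
      1 / 2 ≤ Real.cos (t * y k + (g n * y k + (c n).arg - k * Real.pi))) ∧ ∀ j, t ≠ q j := by
    intro n q
    have hex : ∃ k, g n ≤ Real.exp (2 * y k) := by
      have h1 : Tendsto (fun k => Real.exp (2 * y k)) atTop atTop :=
        Real.tendsto_exp_atTop.comp (hyt.const_mul_atTop (by norm_num))
      exact (h1.eventually_ge_atTop (g n)).exists
    set k₀ := Nat.find hex with hk₀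
    obtain ⟨t, ht0, ht1, ht2, ht3⟩ := cantor hδ (y := fun j => y (k₀ + j))
      (φ := fun j => g n * y (k₀ + j) + (c n).arg - ((k₀ + j : ℕ) : ℝ) * Real.pi) (q := q)
      (fun j => hypos _) (hδ0.trans (mul_le_mul_of_nonneg_left (hmono _) hδ.le)) (fun j => hy7 _)
    refine ⟨t, ⟨⟨ht0, ht1⟩, fun k hk => ?_⟩, ht2⟩
    have hkk : k₀ ≤ k := Nat.find_min' hex hk
    obtain ⟨j, rfl⟩ := Nat.exists_eq_add_of_le hkk
    exact ht3 j
  obtain ⟨w, hw, hLI⟩ := exists_indep g hA
  -- the values at the points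
  have hval : ∀ k, height g c (Real.exp (2 * y k)) / 2 ≤ (-1) ^ k * osc g c w (y k) := by
    intro k
    unfold osc height
    have h1 : ∀ n ∈ upto g (Real.exp (2 * y k)), ‖c n‖ / 2 ≤
        (-1) ^ k * (c n * Complex.exp (((g n + w n) * y k : ℝ) * Complex.I)).re := by
      intro n hn
      have h2 := (hw n).2 k ((mem_upto (h.fin _)).1 hn)
      have e : w n * y k + (g n * y k + (c n).arg - k * Real.pi) =
          ((g n + w n) * y k + (c n).arg) - k * Real.pi := by ring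
      rw [e, cos_sub_nat_pi] at h2
      rw [re_eq]
      have h3 := mul_le_mul_of_nonneg_left h2 (norm_nonneg (c n))
      linarith
    have h4 := sum_le_sum h1
    rw [← sum_div, ← mul_sum] at h4
    linarith
  refine ⟨w, fun n => (hw n).1, hLI, ?_, ?_⟩
  · rw [eq_top_iff, ← EReal.ge_of_forall_gt_iff_ge]
    intro z _
    refine le_limsup_of_frequently_le ?_
    rw [frequently_atTop]
    intro a
    obtain ⟨Y, hY⟩ := (rate (z := z) hs).exists_forall_of_atTop
    obtain ⟨K, hK⟩ := (hyt.eventually_ge_atTop (max a Y)).exists_forall_of_atTop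
    have h1 := hK (2 * K) (by omega)
    obtain ⟨h2, h3⟩ := hY _ ((le_max_right _ _).trans h1)
    refine ⟨y (2 * K), (le_max_left _ _).trans h1, EReal.coe_le_coe_iff.mpr ?_⟩
    rw [le_div_iff₀ h2]
    have h4 := hval (2 * K)
    rw [pow_mul, neg_one_sq, one_pow, one_mul] at h4
    linarith [hyB (2 * K)]
  · rw [eq_bot_iff, ← EReal.le_of_forall_lt_iff_le]
    intro z _
    refine liminf_le_of_frequently_le ?_
    rw [frequently_atTop]
    intro a
    obtain ⟨Y, hY⟩ := (rate (z := -z) hs).exists_forall_of_atTop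
    obtain ⟨K, hK⟩ := (hyt.eventually_ge_atTop (max a Y)).exists_forall_of_atTop
    have h1 := hK (2 * K + 1) (by omega)
    obtain ⟨h2, h3⟩ := hY _ ((le_max_right _ _).trans h1)
    refine ⟨y (2 * K + 1), (le_max_left _ _).trans h1, EReal.coe_le_coe_iff.mpr ?_⟩
    rw [div_le_iff₀ h2]
    have h4 := hval (2 * K + 1)
    rw [pow_succ, pow_mul, neg_one_sq, one_pow, one_mul] at h4
    linarith [hyB (2 * K + 1)]

end Pool.Agent.Helper11.DO
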