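import Pool.Agent.Helper11.DO.Up
import Pool.Agent.Helper11.DO.Exc
import Pool.Agent.Helper51.DO.L8

/-!
# Displaced ordinates (MP_a499ba_nt): the final form in `x`

Author: helper11.
-/

set_option autoImplicit false

namespace Pool.Agent.Helper11.DO

open MeasureTheory ProbabilityTheory Filter Pool.Agent.Helper51.DO

theorem finsum_upto {g : ℕ → ℝ} {T : ℝ} (h : {n | g n ≤ T}.Finite) (f : ℕ → ℝ) :
    ∑ᶠ n ∈ {n | g n ≤ T}, f n = ∑ n ∈ upto g T, f n := by
  rw [finsum_mem_eq_finite_toFinset_sum f h]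
  unfold upto
  rw [dif_pos h]

/-- The displaced function of `x`. -/
theorem disp_eq (a v : ℝ) (c : ℂ) {x : ℝ} (hx : 0 < x) :
    (c * (x : ℂ) ^ ((1 / 2 : ℂ) + ((a + v : ℝ) : ℂ) * Complex.I)).re =
      Real.sqrt x * (c * Complex.exp (((a + v) * Real.log x : ℝ) * Complex.I)).re := by
  have hx' : (x : ℂ) ≠ 0 := by exact_mod_cast hx.ne'
  have h1 : (x : ℂ) ^ ((1 / 2 : ℂ) + ((a + v : ℝ) : ℂ) * Complex.I) =
      (Real.sqrt x : ℂ) * Complex.exp (((a + v) * Real.log x : ℝ) * Complex.I) := by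
    rw [Complex.cpow_add _ _ hx', Real.sqrt_eq_rpow, Complex.ofReal_cpow hx.le,
      Complex.cpow_def_of_ne_zero hx' (((a + v : ℝ) : ℂ) * Complex.I), ← Complex.ofReal_log hx.le]
    push_cast
    congr 2
    ring
  rw [h1]
  have h2 : c * ((Real.sqrt x : ℂ) * Complex.exp (((a + v) * Real.log x : ℝ) * Complex.I)) =
      (Real.sqrt x : ℂ) * (c * Complex.exp (((a + v) * Real.log x : ℝ) * Complex.I)) := by ring
  rw [h2, Complex.re_ofReal_mul]

theorem quot_eq {g : ℕ → ℝ} (hf : ∀ T, {n | g n ≤ T}.Finite) (c : ℕ → ℂ) (w : ℕ → ℝ) {x : ℝ} (hx : 0 < x) :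
    (2 * ∑ᶠ n ∈ {n | g n ≤ x ^ 2}, (c n * (x : ℂ) ^ ((1 / 2 : ℂ) + ((g n + w n : ℝ) : ℂ) * Complex.I)).re) /
      (Real.sqrt x * Real.log (Real.log (Real.log x)) ^ ((5 : ℝ) / 4)) =
      osc g c w (Real.log x) / ll (Real.log x) := by
  rw [finsum_upto (hf _)]
  have e : Real.exp (2 * Real.log x) = x ^ 2 := by
    rw [two_mul, Real.exp_add, Real.exp_log hx, sq]
  have h1 : ∑ n ∈ upto g (x ^ 2), (c n * (x : ℂ) ^ ((1 / 2 : ℂ) + ((g n + w n : ℝ) : ℂ) * Complex.I)).re =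
      Real.sqrt x * ∑ n ∈ upto g (x ^ 2), (c n * Complex.exp (((g n + w n) * Real.log x : ℝ) * Complex.I)).re := by
    rw [Finset.mul_sum]
    exact Finset.sum_congr rfl fun n _ => disp_eq _ _ _ hx
  rw [h1]
  unfold osc ll
  rw [e]
  have hs : Real.sqrt x ≠ 0 := (Real.sqrt_pos.2 hx).ne'
  rw [mul_left_comm, mul_div_mul_left _ _ hs]

/-- The noise given by a product measure: the displacements are `d n * ξ n` with `ξ n` independent of law `μ` on
`[-1, 1]` and `d n ≥ c₀ (1 + log (1 + g n))^(κ - 1)`. -/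
theorem noise_pi {g : ℕ → ℝ} (hg : ∀ n, 0 < g n) {d : ℕ → ℝ} (hd0 : ∀ n, 0 < d n) (hd1 : ∀ n, d n ≤ 1)
    {κ c₀ : ℝ} (hκ : 0 < κ) (hκ1 : κ ≤ 1) (hc₀ : 0 < c₀)
    (hd : ∀ n, c₀ * (1 + Real.log (1 + g n)) ^ (κ - 1) ≤ d n) {μ : Measure ℝ} [IsProbabilityMeasure μ]
    (hμ : ∀ᵐ v ∂μ, |v| ≤ 1)
    (hF : ∀ K : ℕ, ∃ C : ℝ, ∀ t : ℝ, ‖∫ v, Complex.exp ((t * v : ℝ) * Complex.I) ∂μ‖ * (1 + |t|) ^ K ≤ C) :
    Noise (Measure.infinitePi fun _ : ℕ => μ) g (fun n ω => d n * max (-1) (min 1 (ω n))) 1 where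
  meas n := by fun_prop
  indep := iIndepFun_infinitePi (P := fun _ : ℕ => μ) (X := fun n v => d n * max (-1) (min 1 v)) fun n => by
    fun_prop
  bdd n ω := by
    rw [abs_mul, abs_of_pos (hd0 n)]
    have h1 : |max (-1) (min 1 (ω n))| ≤ 1 := abs_le.2 ⟨le_max_left _ _, max_le (by norm_num) (min_le_left _ _)⟩
    calc d n * |max (-1) (min 1 (ω n))| ≤ 1 * 1 := mul_le_mul (hd1 n) h1 (abs_nonneg _) (by norm_num)
      _ = 1 := one_mul 1
  decay K := by
    obtain ⟨K', hK'⟩ := exists_nat_ge ((K : ℝ) / κ)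
    obtain ⟨C, hC⟩ := hF K'
    obtain ⟨C₀, hC₀⟩ := hF 0
    set c₁ := min 1 (c₀ * 2 ^ (κ - 2)) with hc₁
    have hc₁0 : 0 < c₁ := lt_min one_pos (by positivity)
    refine ⟨|C| / c₁ ^ K' + |C₀| * 2 ^ K, fun n t ht => ?_⟩
    have h1 : ∫ ω, Complex.exp ((t * (d n * max (-1) (min 1 (ω n))) : ℝ) * Complex.I)
        ∂(Measure.infinitePi fun _ : ℕ => μ) = ∫ v, Complex.exp (((t * d n) * v : ℝ) * Complex.I) ∂μ := by
      have h2 := (measurePreserving_eval_infinitePi (fun _ : ℕ => μ) n)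
      have h3 : ∫ v, Complex.exp ((t * (d n * max (-1) (min 1 v)) : ℝ) * Complex.I) ∂μ =
          ∫ ω, Complex.exp ((t * (d n * max (-1) (min 1 (ω n))) : ℝ) * Complex.I)
            ∂(Measure.infinitePi fun _ : ℕ => μ) := by
        conv_lhs => rw [← h2.map_eq]
        rw [integral_map h2.measurable.aemeasurable (by fun_prop)]
      rw [← h3]
      refine integral_congr_ae ?_
      filter_upwards [hμ] with v hv
      obtain ⟨h4, h5⟩ := abs_le.1 hv
      rw [min_eq_right h5, max_eq_right h4, mul_assoc]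
    rw [h1]
    set E := ‖∫ v, Complex.exp (((t * d n) * v : ℝ) * Complex.I) ∂μ‖ with hE
    have hE0 : 0 ≤ E := norm_nonneg _
    have hEC : E * (1 + |t * d n|) ^ K' ≤ |C| := (hC _).trans (le_abs_self _)
    have hEC₀ : E ≤ |C₀| := by
      have := hC₀ (t * d n)
      rw [pow_zero, mul_one] at this
      exact this.trans (le_abs_self _)
    have hq1 : 0 ≤ |C| / c₁ ^ K' := by positivity
    have hq2 : 0 ≤ |C₀| * 2 ^ K := by positivity
    rcases le_or_gt 1 |t| with ht1 | ht1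
    · -- the scale is large
      have hlog : 1 + Real.log (1 + g n) ≤ 2 * (1 + |t|) := by
        have h6 : 1 + g n ≤ 2 * Real.exp (2 * |t|) := by
          have := Real.one_le_exp (show (0 : ℝ) ≤ 2 * |t| by positivity)
          linarith
        have h7 : Real.log (1 + g n) ≤ Real.log 2 + 2 * |t| := by
          have h8 := Real.log_le_log (by linarith [hg n]) h6
          rwa [Real.log_mul (by norm_num) (Real.exp_pos _).ne', Real.log_exp] at h8
        have h9 := Real.log_two_lt_d9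
        linarith
      have hlog0 : 0 < 1 + Real.log (1 + g n) := by
        have := Real.log_nonneg (show (1 : ℝ) ≤ 1 + g n by linarith [hg n])
        linarith
      have h10 : c₁ * (1 + |t|) ^ κ ≤ 1 + |t * d n| := by
        have ha : (2 * (1 + |t|)) ^ (κ - 1) ≤ (1 + Real.log (1 + g n)) ^ (κ - 1) :=
          Real.rpow_le_rpow_of_nonpos hlog0 hlog (by linarith)
        have hb : c₀ * (2 * (1 + |t|)) ^ (κ - 1) ≤ d n :=
          (mul_le_mul_of_nonneg_left ha hc₀.le).trans (hd n)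
        have hc : (1 + |t|) / 2 ≤ |t| := by linarith
        have hd' : c₀ * (2 * (1 + |t|)) ^ (κ - 1) * ((1 + |t|) / 2) ≤ d n * |t| :=
          mul_le_mul hb hc (by positivity) (hd0 n).le
        have he : c₀ * (2 * (1 + |t|)) ^ (κ - 1) * ((1 + |t|) / 2) = c₀ * 2 ^ (κ - 2) * (1 + |t|) ^ κ := by
          have e1 : (1 + |t|) ^ κ = (1 + |t|) ^ (κ - 1) * (1 + |t|) := by
            have := Real.rpow_add_one (show (1 + |t|) ≠ 0 by positivity) (κ - 1)
            rw [← this]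
            congr 1
            ring
          have e2 : (2 : ℝ) ^ (κ - 1) = 2 ^ (κ - 2) * 2 := by
            have := Real.rpow_add_one (show (2 : ℝ) ≠ 0 by norm_num) (κ - 2)
            rw [← this]
            congr 1
            ring
          rw [Real.mul_rpow (by norm_num) (by positivity), e1, e2]
          ring
        rw [he] at hd'
        have hf : c₁ * (1 + |t|) ^ κ ≤ c₀ * 2 ^ (κ - 2) * (1 + |t|) ^ κ :=
          mul_le_mul_of_nonneg_right (min_le_right _ _) (by positivity)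
        rw [abs_mul, abs_of_pos (hd0 n)]
        linarith
      have h11 : c₁ ^ K' * (1 + |t|) ^ K ≤ (1 + |t * d n|) ^ K' := by
        have h12 : (1 + |t|) ^ K ≤ ((1 + |t|) ^ κ) ^ K' := by
          rw [← Real.rpow_natCast (1 + |t|) K, ← Real.rpow_natCast _ K', ← Real.rpow_mul (by positivity)]
          refine Real.rpow_le_rpow_of_exponent_le (by linarith [abs_nonneg t]) ?_
          rw [div_le_iff₀ hκ] at hK'
          linarith
        calc c₁ ^ K' * (1 + |t|) ^ K ≤ c₁ ^ K' * ((1 + |t|) ^ κ) ^ K' :=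
              mul_le_mul_of_nonneg_left h12 (by positivity)
          _ = (c₁ * (1 + |t|) ^ κ) ^ K' := (mul_pow _ _ _).symm
          _ ≤ _ := pow_le_pow_left₀ (by positivity) h10 _
      have h13 : E * (1 + |t|) ^ K ≤ |C| / c₁ ^ K' := by
        rw [le_div_iff₀ (by positivity)]
        calc E * (1 + |t|) ^ K * c₁ ^ K' = E * (c₁ ^ K' * (1 + |t|) ^ K) := by ring
          _ ≤ E * (1 + |t * d n|) ^ K' := mul_le_mul_of_nonneg_left h11 hE0
          _ ≤ |C| := hEC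
      linarith
    · have h14 : (1 + |t|) ^ K ≤ 2 ^ K := pow_le_pow_left₀ (by positivity) (by linarith) _
      have h15 : E * (1 + |t|) ^ K ≤ |C₀| * 2 ^ K := mul_le_mul hEC₀ h14 (by positivity) (abs_nonneg _)
      linarith

/-- Almost every displacement. -/
theorem final_ae {g : ℕ → ℝ} {c : ℕ → ℂ} (h : Data g c) {d : ℕ → ℝ} (hd0 : ∀ n, 0 < d n)
    (hd1 : ∀ n, d n ≤ 1) {κ c₀ : ℝ} (hκ : 0 < κ) (hκ1 : κ ≤ 1) (hc₀ : 0 < c₀)
    (hd : ∀ n, c₀ * (1 + Real.log (1 + g n)) ^ (κ - 1) ≤ d n) {μ : Measure ℝ}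
    [IsProbabilityMeasure μ] (hμ : ∀ᵐ v ∂μ, |v| ≤ 1)
    (hF : ∀ K : ℕ, ∃ C : ℝ, ∀ t : ℝ, ‖∫ v, Complex.exp ((t * v : ℝ) * Complex.I) ∂μ‖ * (1 + |t|) ^ K ≤ C) :
    ∀ᵐ ξ ∂(Measure.infinitePi fun _ : ℕ => μ),
      limsup (fun y : ℝ => ((osc g c (fun n => d n * ξ n) y / ll y : ℝ) : EReal)) atTop = Bd g c ∧
      liminf (fun y : ℝ => ((osc g c (fun n => d n * ξ n) y / ll y : ℝ) : EReal)) atTop = -Bd g c := by
  have hN := noise_pi h.pos hd0 hd1 hκ hκ1 hc₀ hd hμ hF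
  have h1 := limits_y (P := Measure.infinitePi fun _ : ℕ => μ) (g := g) (c := c)
    (w := fun n ω => d n * max (-1) (min 1 (ω n))) (fun ε hε => upper_of h hN hε) (by
      intro c' hc' ε η hε hη hη1 T hT
      rcases hc' with rfl | rfl
      · exact lower_of h hN hε hη hη1 T hT
      · exact lower_of (Data.neg h) hN hε hη hη1 T hT)
  have h2 : ∀ᵐ ξ ∂(Measure.infinitePi fun _ : ℕ => μ), ∀ n, |ξ n| ≤ 1 := by
    rw [ae_all_iff]
    intro n
    exact (measurePreserving_eval_infinitePi (fun _ : ℕ => μ) n).quasiMeasurePreserving.ae hμ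
  filter_upwards [h1, h2] with ξ hw1 hw2
  have e : (fun n => d n * max (-1) (min 1 (ξ n))) = fun n => d n * ξ n := by
    funext n
    obtain ⟨h4, h5⟩ := abs_le.1 (hw2 n)
    rw [min_eq_right h5, max_eq_right h4]
  rw [e] at hw1
  exact hw1

/-- Change of variables in the two limits. -/
theorem limits_x {g : ℕ → ℝ} (hf : ∀ T, {n | g n ≤ T}.Finite) (c : ℕ → ℂ) (w : ℕ → ℝ) :
    limsup (fun x : ℝ => (((2 * ∑ᶠ n ∈ {n | g n ≤ x ^ 2},
      (c n * (x : ℂ) ^ ((1 / 2 : ℂ) + ((g n + w n : ℝ) : ℂ) * Complex.I)).re) /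
      (Real.sqrt x * Real.log (Real.log (Real.log x)) ^ ((5 : ℝ) / 4)) : ℝ) : EReal)) atTop =
      limsup (fun y : ℝ => ((osc g c w y / ll y : ℝ) : EReal)) atTop ∧
    liminf (fun x : ℝ => (((2 * ∑ᶠ n ∈ {n | g n ≤ x ^ 2},
      (c n * (x : ℂ) ^ ((1 / 2 : ℂ) + ((g n + w n : ℝ) : ℂ) * Complex.I)).re) /
      (Real.sqrt x * Real.log (Real.log (Real.log x)) ^ ((5 : ℝ) / 4)) : ℝ) : EReal)) atTop =
      liminf (fun y : ℝ => ((osc g c w y / ll y : ℝ) : EReal)) atTop := by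
  have h1 : (fun x : ℝ => (((2 * ∑ᶠ n ∈ {n | g n ≤ x ^ 2},
      (c n * (x : ℂ) ^ ((1 / 2 : ℂ) + ((g n + w n : ℝ) : ℂ) * Complex.I)).re) /
      (Real.sqrt x * Real.log (Real.log (Real.log x)) ^ ((5 : ℝ) / 4)) : ℝ) : EReal)) =ᶠ[atTop]
      fun x : ℝ => (fun y : ℝ => ((osc g c w y / ll y : ℝ) : EReal)) (Real.log x) := by
    refine (eventually_gt_atTop (0 : ℝ)).mono fun x hx => ?_
    exact congrArg (fun r : ℝ => (r : EReal)) (quot_eq hf c w hx)
  rw [limsup_congr h1, liminf_congr h1, limsup_log (fun y : ℝ => ((osc g c w y / ll y : ℝ) : EReal)),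
    liminf_log (fun y : ℝ => ((osc g c w y / ll y : ℝ) : EReal))]
  exact ⟨rfl, rfl⟩

end Pool.Agent.Helper11.DO
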