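import Pool.Agent.Helper11.DO.Fin
import Pool.Agent.Helper11.DO.Cst

/-!
# Displaced ordinates (MP_a499ba_nt): the final form in `x`, with a constant

Author: helper11.
-/

set_option autoImplicit false

namespace Pool.Agent.Helper11.DO

open Filter Pool.Agent.Helper51.DO

theorem quot_eq_const {g : ℕ → ℝ} (hf : ∀ T, {n | g n ≤ T}.Finite) (c : ℕ → ℂ) (a : ℝ) (w : ℕ → ℝ) {x : ℝ}
    (hx : 0 < x) :
    (a * Real.sqrt x +
      2 * ∑ᶠ n ∈ {n | g n ≤ x ^ 2}, (c n * (x : ℂ) ^ ((1 / 2 : ℂ) + ((g n + w n : ℝ) : ℂ) * Complex.I)).re) /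
      (Real.sqrt x * Real.log (Real.log (Real.log x)) ^ ((5 : ℝ) / 4)) =
      (a + osc g c w (Real.log x)) / ll (Real.log x) := by
  have hs : Real.sqrt x ≠ 0 := (Real.sqrt_pos.2 hx).ne'
  rw [add_div, quot_eq hf c w hx, add_div, mul_comm a, mul_div_mul_left _ _ hs]
  rfl

/-- Change of variables in the two limits. -/
theorem limits_x_const {g : ℕ → ℝ} (hf : ∀ T, {n | g n ≤ T}.Finite) (c : ℕ → ℂ) (a : ℝ) (w : ℕ → ℝ) :
    limsup (fun x : ℝ => (((a * Real.sqrt x + 2 * ∑ᶠ n ∈ {n | g n ≤ x ^ 2},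
      (c n * (x : ℂ) ^ ((1 / 2 : ℂ) + ((g n + w n : ℝ) : ℂ) * Complex.I)).re) /
      (Real.sqrt x * Real.log (Real.log (Real.log x)) ^ ((5 : ℝ) / 4)) : ℝ) : EReal)) atTop =
      limsup (fun y : ℝ => ((osc g c w y / ll y : ℝ) : EReal)) atTop ∧
    liminf (fun x : ℝ => (((a * Real.sqrt x + 2 * ∑ᶠ n ∈ {n | g n ≤ x ^ 2},
      (c n * (x : ℂ) ^ ((1 / 2 : ℂ) + ((g n + w n : ℝ) : ℂ) * Complex.I)).re) /
      (Real.sqrt x * Real.log (Real.log (Real.log x)) ^ ((5 : ℝ) / 4)) : ℝ) : EReal)) atTop =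
      liminf (fun y : ℝ => ((osc g c w y / ll y : ℝ) : EReal)) atTop := by
  have h1 : (fun x : ℝ => (((a * Real.sqrt x + 2 * ∑ᶠ n ∈ {n | g n ≤ x ^ 2},
      (c n * (x : ℂ) ^ ((1 / 2 : ℂ) + ((g n + w n : ℝ) : ℂ) * Complex.I)).re) /
      (Real.sqrt x * Real.log (Real.log (Real.log x)) ^ ((5 : ℝ) / 4)) : ℝ) : EReal)) =ᶠ[atTop]
      fun x : ℝ => (fun y : ℝ => (((a + osc g c w y) / ll y : ℝ) : EReal)) (Real.log x) := by
    refine (eventually_gt_atTop (0 : ℝ)).mono fun x hx => ?_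
    exact congrArg (fun r : ℝ => (r : EReal)) (quot_eq_const hf c a w hx)
  rw [limsup_congr h1, liminf_congr h1, limsup_log (fun y : ℝ => (((a + osc g c w y) / ll y : ℝ) : EReal)),
    liminf_log (fun y : ℝ => (((a + osc g c w y) / ll y : ℝ) : EReal)), limsup_const, liminf_const]
  exact ⟨rfl, rfl⟩

end Pool.Agent.Helper11.DO
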