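import Pool.Agent.Helper11.DO.Exc

/-!
# Displaced ordinates (MP_a499ba_nt): generic displacements

The displacements are `d n * ξ n` with `ξ` in the compact space `[-1, 1]^ℕ`. For a residual set of `ξ` the displaced
ordinates are linearly independent over the rational numbers and the displaced function has the limits `-∞` and `∞`
relative to `(log log y)^(5/4)`.
Author: helper11 (version with scales `d n`: helper51).
-/

set_option autoImplicit false

namespace Pool.Agent.Helper11.DO

open Filter Finset Topology Pool.Agent.Helper51.DO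

/-- The space of displacements. -/
abbrev Dsp (δ : ℝ) : Type := ℕ → Set.Icc (-δ) δ

/-- A displacement close to `a` with a prescribed phase. -/
theorem align {δ a y φ : ℝ} (ha : a ∈ Set.Icc (-δ) δ) (hy : 0 < y) (hδ : 2 * Real.pi / y ≤ δ) :
    ∃ b ∈ Set.Icc (-δ) δ, |b - a| ≤ 2 * Real.pi / y ∧ Real.cos (b * y + φ) = 1 := by
  have hπ := Real.pi_pos
  obtain ⟨ha1, ha2⟩ := ha
  rcases le_or_gt a 0 with h0 | h0
  · -- move to the right
    set m : ℤ := ⌈(a * y + φ) / (2 * Real.pi)⌉ with hm
    have h1 : a * y + φ ≤ m * (2 * Real.pi) := by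
      rw [← div_le_iff₀ (by positivity)]
      exact Int.le_ceil _
    have h2 : m * (2 * Real.pi) < a * y + φ + 2 * Real.pi := by
      have h3 := Int.ceil_lt_add_one ((a * y + φ) / (2 * Real.pi))
      have h4 : ((m : ℝ) - 1) < (a * y + φ) / (2 * Real.pi) := by
        rw [hm]
        linarith
      rw [lt_div_iff₀ (by positivity)] at h4
      linarith
    have h5 : a ≤ (m * (2 * Real.pi) - φ) / y := by
      rw [le_div_iff₀ hy]
      linarith
    have h6 : (m * (2 * Real.pi) - φ) / y ≤ a + 2 * Real.pi / y := by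
      rw [div_le_iff₀ hy, add_mul, div_mul_cancel₀ _ hy.ne']
      linarith
    refine ⟨(m * (2 * Real.pi) - φ) / y, ⟨by linarith, by linarith⟩, ?_, ?_⟩
    · rw [abs_of_nonneg (by linarith)]
      linarith
    · rw [div_mul_cancel₀ _ hy.ne', sub_add_cancel]
      exact Real.cos_int_mul_two_pi m
  · -- move to the left
    set m : ℤ := ⌊(a * y + φ) / (2 * Real.pi)⌋ with hm
    have h1 : m * (2 * Real.pi) ≤ a * y + φ := by
      rw [← le_div_iff₀ (by positivity)]
      exact Int.floor_le _
    have h2 : a * y + φ - 2 * Real.pi < m * (2 * Real.pi) := by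
      have h3 := Int.lt_floor_add_one ((a * y + φ) / (2 * Real.pi))
      have h4 : (a * y + φ) / (2 * Real.pi) < m + 1 := by
        rw [hm]
        exact h3
      rw [div_lt_iff₀ (by positivity)] at h4
      linarith
    have h5 : (m * (2 * Real.pi) - φ) / y ≤ a := by
      rw [div_le_iff₀ hy]
      linarith
    have h6 : a - 2 * Real.pi / y ≤ (m * (2 * Real.pi) - φ) / y := by
      rw [le_div_iff₀ hy, sub_mul, div_mul_cancel₀ _ hy.ne']
      linarith
    refine ⟨(m * (2 * Real.pi) - φ) / y, ⟨by linarith, by linarith⟩, ?_, ?_⟩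
    · rw [abs_of_nonpos (by linarith)]
      linarith
    · rw [div_mul_cancel₀ _ hy.ne', sub_add_cancel]
      exact Real.cos_int_mul_two_pi m

theorem osc_cont (g : ℕ → ℝ) (c : ℕ → ℂ) (d : ℕ → ℝ) (y : ℝ) :
    Continuous fun w : Dsp 1 => osc g c (fun n => d n * (w n : ℝ)) y := by
  unfold osc
  fun_prop

/-- The set of displacements with a large value. -/
def Big (g : ℕ → ℝ) (c : ℕ → ℂ) (d : ℕ → ℝ) (a z : ℝ) : Set (Dsp 1) :=
  {w | ∃ y : ℝ, a ≤ y ∧ 0 < ll y ∧ z * ll y < osc g c (fun n => d n * (w n : ℝ)) y}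

theorem big_open (g : ℕ → ℝ) (c : ℕ → ℂ) (d : ℕ → ℝ) (a z : ℝ) : IsOpen (Big g c d a z) := by
  have h : Big g c d a z = ⋃ y : {y : ℝ // a ≤ y ∧ 0 < ll y},
      {w : Dsp 1 | z * ll y < osc g c (fun n => d n * (w n : ℝ)) y} := by
    ext w
    unfold Big
    simp only [Set.mem_iUnion]
    constructor
    · rintro ⟨y, h1, h2, h3⟩
      exact ⟨⟨y, h1, h2⟩, h3⟩
    · rintro ⟨⟨y, h1, h2⟩, h3⟩
      exact ⟨y, h1, h2, h3⟩
  rw [h]
  exact isOpen_iUnion fun y => isOpen_lt continuous_const (osc_cont g c d y)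

/-- The scales are admissible: at a large `y` every displacement of an ordinate up to `e^(2y)` can turn the phase by a
full period. -/
def Wide (g d : ℕ → ℝ) : Prop :=
  ∀ᶠ y : ℝ in atTop, ∀ n, g n ≤ Real.exp (2 * y) → 2 * Real.pi / (d n * y) ≤ 1

theorem big_dense {g : ℕ → ℝ} {c : ℕ → ℂ} (h : Data g c) (hB : 0 < Bd g c) {d : ℕ → ℝ} (hd : ∀ n, 0 < d n)
    (hw : Wide g d) (a z : ℝ) : Dense (Big g c d a z) := by
  classical
  have hπ := Real.pi_pos
  obtain ⟨s, y, hs, _, hypos, _, hyt, hyB⟩ := points hB 1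
  intro w
  -- the approximating displacements
  have hex : ∀ᶠ k in atTop, ∀ n, g n ≤ Real.exp (2 * y k) → 2 * Real.pi / (d n * y k) ≤ 1 := hyt.eventually hw
  have hal : ∀ k n, ∃ b : Set.Icc (-1 : ℝ) 1, 2 * Real.pi / (d n * y k) ≤ 1 →
      |(b : ℝ) - w n| ≤ 2 * Real.pi / (d n * y k) ∧
        Real.cos (b * (d n * y k) + (g n * y k + (c n).arg)) = 1 := by
    intro k n
    by_cases hk : 2 * Real.pi / (d n * y k) ≤ 1
    · obtain ⟨b, hb, h1, h2⟩ := align (φ := g n * y k + (c n).arg) (w n).2 (mul_pos (hd n) (hypos k)) hk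
      exact ⟨⟨b, hb⟩, fun _ => ⟨h1, h2⟩⟩
    · exact ⟨w n, fun h => absurd h hk⟩
  choose b hb using hal
  refine mem_closure_of_tendsto (f := fun k n => b k n) (b := atTop) ?_ ?_
  · rw [tendsto_pi_nhds]
    intro n
    rw [tendsto_subtype_rng]
    have h1 : Tendsto (fun k => 2 * Real.pi / (d n * y k)) atTop (𝓝 0) :=
      tendsto_const_nhds.div_atTop (hyt.const_mul_atTop (hd n))
    rw [tendsto_iff_dist_tendsto_zero]
    refine squeeze_zero' (Eventually.of_forall fun k => dist_nonneg) ?_ h1
    filter_upwards [h1.eventually (ge_mem_nhds (show (0 : ℝ) < 1 by norm_num))] with k hk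
    rw [Real.dist_eq]
    exact (hb k n hk).1
  · obtain ⟨Y, hY⟩ := (rate (z := z) hs).exists_forall_of_atTop
    filter_upwards [hex, hyt.eventually_ge_atTop (max a Y)] with k hk hk2
    obtain ⟨h2, h3⟩ := hY _ ((le_max_right _ _).trans hk2)
    refine ⟨y k, (le_max_left _ _).trans hk2, h2, ?_⟩
    have h4 : osc g c (fun n => d n * (b k n : ℝ)) (y k) = height g c (Real.exp (2 * y k)) := by
      unfold osc height
      congr 1
      refine sum_congr rfl fun n hn => ?_
      rw [re_eq]
      have e : (g n + d n * (b k n : ℝ)) * y k + (c n).arg =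
          b k n * (d n * y k) + (g n * y k + (c n).arg) := by ring
      rw [e, (hb k n (hk n ((mem_upto (h.fin _)).1 hn))).2, mul_one]
    rw [h4]
    have h5 : 0 < s * (2 * y k) ^ ((5 : ℝ) / 4) :=
      mul_pos hs (Real.rpow_pos_of_pos (by have := hypos k; linarith) _)
    linarith [hyB k]

/-- Linear independence is generic. -/
theorem residual_indep (g : ℕ → ℝ) {d : ℕ → ℝ} (hd : ∀ n, 0 < d n) :
    ∀ᶠ w : Dsp 1 in residual (Dsp 1), LinearIndependent ℚ (fun n => g n + d n * (w n : ℝ)) := by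
  classical
  have h1 : ∀ f : ℕ →₀ ℚ, f ≠ 0 → ∀ᶠ w : Dsp 1 in residual (Dsp 1),
      ∑ n ∈ f.support, (f n : ℝ) * (g n + d n * (w n : ℝ)) ≠ 0 := by
    intro f hf
    refine residual_of_dense_open ?_ ?_
    · exact isOpen_ne_fun (by fun_prop) continuous_const
    · intro w
      by_cases hw : ∑ n ∈ f.support, (f n : ℝ) * (g n + d n * (w n : ℝ)) ≠ 0
      · exact subset_closure hw
      · rw [not_not] at hw
        obtain ⟨m, hm⟩ : ∃ m, f m ≠ 0 := by
          by_contra hcon
          push Not at hcon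
          exact hf (Finsupp.ext hcon)
        -- the perturbation of the coordinate m
        set σ : ℝ := if (w m : ℝ) ≤ 0 then 1 else -1 with hσ
        have hmem : ∀ k : ℕ, (w m : ℝ) + σ * (1 / (k + 1)) ∈ Set.Icc (-1 : ℝ) 1 := by
          intro k
          obtain ⟨h2, h3⟩ := (w m).2
          have h4 : 0 < 1 / ((k : ℝ) + 1) := by positivity
          have h5 : 1 / ((k : ℝ) + 1) ≤ 1 := div_le_self zero_le_one (by
            have : (0 : ℝ) ≤ k := Nat.cast_nonneg k
            linarith)
          rw [hσ]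
          split_ifs with h6
          · constructor <;> linarith
          · constructor <;> linarith
        have hσ0 : σ ≠ 0 := by
          rw [hσ]
          split_ifs <;> norm_num
        refine mem_closure_of_tendsto (f := fun k : ℕ => Function.update w m ⟨_, hmem k⟩) (b := atTop) ?_ ?_
        · rw [tendsto_pi_nhds]
          intro n
          by_cases hn : n = m
          · subst hn
            simp only [Function.update_self]
            rw [tendsto_subtype_rng]
            have h2 : Tendsto (fun k : ℕ => (w n : ℝ) + σ * (1 / ((k : ℝ) + 1))) atTop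
                (𝓝 ((w n : ℝ) + σ * 0)) := by
              refine tendsto_const_nhds.add (Tendsto.const_mul σ ?_)
              exact tendsto_const_nhds.div_atTop
                (tendsto_atTop_add_const_right _ _ tendsto_natCast_atTop_atTop)
            rw [mul_zero, add_zero] at h2
            exact h2
          · simp only [Function.update_of_ne hn]
            exact tendsto_const_nhds
        · refine Eventually.of_forall fun k => ?_
          show ∑ n ∈ f.support, (f n : ℝ) * (g n + d n * (Function.update w m ⟨_, hmem k⟩ n : ℝ)) ≠ 0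
          have h2 : ∑ n ∈ f.support, (f n : ℝ) * (g n + d n * (Function.update w m ⟨_, hmem k⟩ n : ℝ)) =
              ∑ n ∈ f.support, (f n : ℝ) * (g n + d n * (w n : ℝ)) +
                (f m : ℝ) * (d m * (σ * (1 / (k + 1)))) := by
            have h3 : ∀ n ∈ f.support, (f n : ℝ) * (g n + d n * (Function.update w m ⟨_, hmem k⟩ n : ℝ)) =
                (f n : ℝ) * (g n + d n * (w n : ℝ)) +
                  if n = m then (f m : ℝ) * (d m * (σ * (1 / (k + 1)))) else 0 := by
              intro n _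
              by_cases hn : n = m
              · subst hn
                rw [Function.update_self, if_pos rfl]
                ring
              · rw [Function.update_of_ne hn, if_neg hn, add_zero]
            rw [sum_congr rfl h3, sum_add_distrib, sum_ite_eq', if_pos (Finsupp.mem_support_iff.2 hm)]
          rw [h2, hw, zero_add]
          have h4 : (0 : ℝ) < 1 / (k + 1) := by positivity
          have h5 : (f m : ℝ) ≠ 0 := by exact_mod_cast hm
          exact mul_ne_zero h5 (mul_ne_zero (hd m).ne' (mul_ne_zero hσ0 h4.ne'))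
  have h2 : ∀ᶠ w : Dsp 1 in residual (Dsp 1), ∀ f : ℕ →₀ ℚ, f ≠ 0 →
      ∑ n ∈ f.support, (f n : ℝ) * (g n + d n * (w n : ℝ)) ≠ 0 := by
    rw [eventually_countable_forall]
    intro f
    by_cases hf : f = 0
    · exact Eventually.of_forall fun w h => absurd hf h
    · exact (h1 f hf).mono fun w hw _ => hw
  refine h2.mono fun w hw => ?_
  rw [linearIndependent_iff]
  intro l hl
  by_contra hne
  refine hw l hne ?_
  rw [Finsupp.linearCombination_apply, Finsupp.sum] at hl
  rw [← hl]
  refine sum_congr rfl fun n _ => ?_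
  rw [Rat.smul_def]

/-- Generic displacements. -/
theorem generic {g : ℕ → ℝ} {c : ℕ → ℂ} (h : Data g c) (hB : 0 < Bd g c) {d : ℕ → ℝ} (hd : ∀ n, 0 < d n)
    (hw : Wide g d) :
    ∀ᶠ w : Dsp 1 in residual (Dsp 1), LinearIndependent ℚ (fun n => g n + d n * (w n : ℝ)) ∧
      limsup (fun y : ℝ => ((osc g c (fun n => d n * (w n : ℝ)) y / ll y : ℝ) : EReal)) atTop = ⊤ ∧
      liminf (fun y : ℝ => ((osc g c (fun n => d n * (w n : ℝ)) y / ll y : ℝ) : EReal)) atTop = ⊥ := by
  have key : ∀ c' : ℕ → ℂ, Data g c' → 0 < Bd g c' → ∀ᶠ w : Dsp 1 in residual (Dsp 1), ∀ k : ℕ,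
      w ∈ Big g c' d k k := by
    intro c' hc' hB'
    rw [eventually_countable_forall]
    exact fun k => residual_of_dense_open (big_open g c' d k k) (big_dense hc' hB' hd hw k k)
  have top : ∀ (c' : ℕ → ℂ) (w : Dsp 1), (∀ k : ℕ, w ∈ Big g c' d k k) →
      limsup (fun y : ℝ => ((osc g c' (fun n => d n * (w n : ℝ)) y / ll y : ℝ) : EReal)) atTop = ⊤ := by
    intro c' w hw
    rw [eq_top_iff, ← EReal.ge_of_forall_gt_iff_ge]
    intro z _
    refine le_limsup_of_frequently_le ?_
    rw [frequently_atTop]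
    intro a
    obtain ⟨k, hk⟩ := exists_nat_ge (max a z)
    obtain ⟨y, h1, h2, h3⟩ := hw k
    refine ⟨y, ((le_max_left _ _).trans hk).trans h1, EReal.coe_le_coe_iff.mpr ?_⟩
    rw [le_div_iff₀ h2]
    exact (mul_le_mul_of_nonneg_right ((le_max_right _ _).trans hk) h2.le).trans h3.le
  filter_upwards [residual_indep g hd, key c h hB,
    key (fun n => -c n) (Data.neg h) (by rw [Bd_neg]; exact hB)] with w h1 h2 h3
  refine ⟨h1, top c w h2, ?_⟩
  have h4 := top _ w h3
  have h5 : (fun y : ℝ => ((osc g (fun n => -c n) (fun n => d n * (w n : ℝ)) y / ll y : ℝ) : EReal)) =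
      -fun y : ℝ => ((osc g c (fun n => d n * (w n : ℝ)) y / ll y : ℝ) : EReal) := by
    funext y
    rw [osc_neg, Pi.neg_apply, neg_div, EReal.coe_neg]
  rw [h5, EReal.limsup_neg, EReal.neg_eq_top_iff] at h4
  exact h4

/-- The logarithmic scales are wide. -/
theorem wide_log {g : ℕ → ℝ} (hg : ∀ n, 0 < g n) {d : ℕ → ℝ} (hd0 : ∀ n, 0 < d n)
    {κ c₀ : ℝ} (hκ : 0 < κ) (hκ1 : κ ≤ 1) (hc₀ : 0 < c₀)
    (hd : ∀ n, c₀ * (1 + Real.log (1 + g n)) ^ (κ - 1) ≤ d n) : Wide g d := by
  have hπ := Real.pi_pos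
  have h1 : Tendsto (fun y : ℝ => c₀ * 4 ^ (κ - 1) * y ^ κ) atTop atTop :=
    (tendsto_rpow_atTop hκ).const_mul_atTop (by positivity)
  filter_upwards [h1.eventually_ge_atTop (2 * Real.pi), eventually_ge_atTop (1 : ℝ)] with y hy hy1 n hn
  have hy0 : 0 < y := by linarith
  have hlog : 1 + Real.log (1 + g n) ≤ 4 * y := by
    have h6 : 1 + g n ≤ 2 * Real.exp (2 * y) := by
      have := Real.one_le_exp (show (0 : ℝ) ≤ 2 * y by positivity)
      linarith
    have h7 : Real.log (1 + g n) ≤ Real.log 2 + 2 * y := by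
      have h8 := Real.log_le_log (by linarith [hg n]) h6
      rwa [Real.log_mul (by norm_num) (Real.exp_pos _).ne', Real.log_exp] at h8
    have h9 := Real.log_two_lt_d9
    linarith
  have hlog0 : 0 < 1 + Real.log (1 + g n) := by
    have := Real.log_nonneg (show (1 : ℝ) ≤ 1 + g n by linarith [hg n])
    linarith
  have ha : (4 * y) ^ (κ - 1) ≤ (1 + Real.log (1 + g n)) ^ (κ - 1) :=
    Real.rpow_le_rpow_of_nonpos hlog0 hlog (by linarith)
  have hb : c₀ * (4 * y) ^ (κ - 1) ≤ d n := (mul_le_mul_of_nonneg_left ha hc₀.le).trans (hd n)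
  have e1 : y ^ κ = y ^ (κ - 1) * y := by
    have := Real.rpow_add_one hy0.ne' (κ - 1)
    rw [← this]
    congr 1
    ring
  have hc : c₀ * 4 ^ (κ - 1) * y ^ κ ≤ d n * y := by
    have := mul_le_mul_of_nonneg_right hb hy0.le
    rw [Real.mul_rpow (by norm_num) hy0.le] at this
    rw [e1]
    calc c₀ * 4 ^ (κ - 1) * (y ^ (κ - 1) * y) = c₀ * (4 ^ (κ - 1) * y ^ (κ - 1)) * y := by ring
      _ ≤ _ := this
  rw [div_le_one (mul_pos (hd0 n) hy0)]
  linarith

end Pool.Agent.Helper11.DO
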