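import Pool.Agent.Helper51.DO.Defs

/-!
# Displaced ordinates (MP_a499ba_nt): one block at one point

Hoeffding inequality for the centred sums, Lipschitz bound, mean.
Author: helper11.
-/

set_option autoImplicit false

namespace Pool.Agent.Helper11.DO

open MeasureTheory ProbabilityTheory Filter Finset Pool.Agent.Helper51.DO

/-- One term. -/
noncomputable def tm (a : ℝ) (c : ℂ) (y v : ℝ) : ℝ := (c * Complex.exp (((a + v) * y : ℝ) * Complex.I)).re

theorem tm_abs (a : ℝ) (c : ℂ) (y v : ℝ) : |tm a c y v| ≤ ‖c‖ := by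
  unfold tm
  refine (Complex.abs_re_le_norm _).trans ?_
  rw [norm_mul, Complex.norm_exp_ofReal_mul_I, mul_one]

theorem tm_meas (a : ℝ) (c : ℂ) (y : ℝ) : Measurable (tm a c y) := by
  unfold tm
  fun_prop

theorem exp_lip (x y : ℝ) : ‖Complex.exp ((x : ℂ) * Complex.I) - Complex.exp ((y : ℂ) * Complex.I)‖ ≤ |x - y| := by
  have h : Complex.exp ((x : ℂ) * Complex.I) - Complex.exp ((y : ℂ) * Complex.I) =
      Complex.exp ((y : ℂ) * Complex.I) * (Complex.exp (((x - y : ℝ) : ℂ) * Complex.I) - 1) := by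
    rw [mul_sub, mul_one, ← Complex.exp_add]
    congr 2
    push_cast
    ring
  rw [h, norm_mul, Complex.norm_exp_ofReal_mul_I, one_mul]
  have := Real.norm_exp_I_mul_ofReal_sub_one_le (x := x - y)
  rw [mul_comm, Real.norm_eq_abs] at this
  exact this

theorem tm_lip (a : ℝ) (c : ℂ) (y y' v : ℝ) : |tm a c y v - tm a c y' v| ≤ ‖c‖ * (|a + v| * |y - y'|) := by
  unfold tm
  rw [← Complex.sub_re, ← mul_sub]
  refine (Complex.abs_re_le_norm _).trans ?_
  rw [norm_mul]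
  refine mul_le_mul_of_nonneg_left ((exp_lip _ _).trans (le_of_eq ?_)) (norm_nonneg _)
  rw [← mul_sub, abs_mul]

variable {Ω : Type*} [MeasurableSpace Ω] {P : Measure Ω} [IsProbabilityMeasure P]

theorem tm_int (a : ℝ) (c : ℂ) (y : ℝ) {w : Ω → ℝ} (hw : Measurable w) :
    Integrable (fun ω => tm a c y (w ω)) P := by
  refine Integrable.of_bound ((tm_meas a c y).comp hw).aestronglyMeasurable ‖c‖ (ae_of_all _ fun ω => ?_)
  rw [Real.norm_eq_abs]
  exact tm_abs _ _ _ _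

/-- The centred term. -/
noncomputable def ct (P : Measure Ω) (w : Ω → ℝ) (a : ℝ) (c : ℂ) (y : ℝ) (ω : Ω) : ℝ :=
  tm a c y (w ω) - ∫ ω', tm a c y (w ω') ∂P

theorem ct_subG {w : Ω → ℝ} (hw : Measurable w) (a : ℝ) (c : ℂ) (y : ℝ) :
    HasSubgaussianMGF (ct P w a c y) (‖c‖₊ ^ 2) P := by
  have h := hasSubgaussianMGF_of_mem_Icc (μ := P) (X := fun ω => tm a c y (w ω)) (a := -‖c‖) (b := ‖c‖)
    ((tm_meas a c y).comp hw).aemeasurable (ae_of_all _ fun ω => abs_le.1 (tm_abs _ _ _ _))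
  have e : (‖‖c‖ - -‖c‖‖₊ / 2) ^ 2 = ‖c‖₊ ^ 2 := by
    congr 1
    apply NNReal.coe_injective
    push_cast
    rw [sub_neg_eq_add, Real.norm_eq_abs, abs_of_nonneg (by positivity)]
    ring
  rw [e] at h
  exact h

omit [IsProbabilityMeasure P] in
theorem ct_indep {w : ℕ → Ω → ℝ} (hi : iIndepFun w P) (g : ℕ → ℝ) (c : ℕ → ℂ) (y : ℝ) :
    iIndepFun (fun n => ct P (w n) (g n) (c n) y) P :=
  hi.comp (fun n v => tm (g n) (c n) y v - ∫ ω', tm (g n) (c n) y (w n ω') ∂P)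
    fun _ => (tm_meas _ _ _).sub_const _

/-- Hoeffding inequality. -/
theorem hoeff {w : ℕ → Ω → ℝ} (hm : ∀ n, Measurable (w n)) (hi : iIndepFun w P) (g : ℕ → ℝ) (c : ℕ → ℂ)
    (y : ℝ) (s : Finset ℕ) {V l : ℝ} (hV : 0 < V) (hl : 0 ≤ l) (hs : ∑ n ∈ s, ‖c n‖ ^ 2 ≤ V) :
    P {ω | l ≤ |∑ n ∈ s, ct P (w n) (g n) (c n) y ω|} ≤ ENNReal.ofReal (2 * Real.exp (-l ^ 2 / (2 * V))) := by
  have hG := HasSubgaussianMGF.sum_of_iIndepFun (ct_indep hi g c y) (s := s)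
    (c := fun n => ‖c n‖₊ ^ 2) fun n _ => ct_subG (hm n) (g n) (c n) y
  have hG' : HasSubgaussianMGF (fun ω => ∑ n ∈ s, ct P (w n) (g n) (c n) y ω) (Real.toNNReal V) P := by
    refine ⟨hG.integrable_exp_mul, fun t => (hG.mgf_le t).trans (Real.exp_le_exp.2 ?_)⟩
    rw [Real.coe_toNNReal V hV.le]
    push_cast
    have h0 : 0 ≤ t ^ 2 := sq_nonneg t
    have h3 := mul_le_mul_of_nonneg_right hs h0
    linarith
  have h1 := hG'.measure_ge_le hl
  have h2 := hG'.neg.measure_ge_le hl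
  rw [Real.coe_toNNReal V hV.le] at h1 h2
  have hsub : {ω | l ≤ |∑ n ∈ s, ct P (w n) (g n) (c n) y ω|} ⊆
      {ω | l ≤ ∑ n ∈ s, ct P (w n) (g n) (c n) y ω} ∪
      {ω | l ≤ (-fun ω => ∑ n ∈ s, ct P (w n) (g n) (c n) y ω) ω} := by
    intro ω hω
    have hω' : l ≤ |∑ n ∈ s, ct P (w n) (g n) (c n) y ω| := hω
    rcases le_abs.1 hω' with h | h
    · exact Or.inl h
    · exact Or.inr h
  refine (measure_mono hsub).trans ((measure_union_le _ _).trans ?_)
  rw [two_mul, ENNReal.ofReal_add (Real.exp_pos _).le (Real.exp_pos _).le]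
  refine add_le_add ?_ ?_
  · rw [← ofReal_measureReal]
    exact ENNReal.ofReal_le_ofReal h1
  · rw [← ofReal_measureReal]
    exact ENNReal.ofReal_le_ofReal h2

/-- Lipschitz bound for the centred sum. -/
theorem ct_lip {w : ℕ → Ω → ℝ} (hm : ∀ n, Measurable (w n)) {δ : ℝ} (hb : ∀ n ω, |w n ω| ≤ δ)
    (g : ℕ → ℝ) (c : ℕ → ℂ) (y y' : ℝ) (s : Finset ℕ) {G : ℝ} (hg : ∀ n ∈ s, |g n| ≤ G) (ω : Ω) :
    |∑ n ∈ s, ct P (w n) (g n) (c n) y ω - ∑ n ∈ s, ct P (w n) (g n) (c n) y' ω| ≤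
      2 * (G + δ) * (∑ n ∈ s, ‖c n‖) * |y - y'| := by
  rw [← sum_sub_distrib, mul_sum, sum_mul]
  refine (abs_sum_le_sum_abs _ _).trans (sum_le_sum fun n hn => ?_)
  have hv : ∀ ω, |g n + w n ω| ≤ G + δ := fun ω =>
    (abs_add_le _ _).trans (add_le_add (hg n hn) (hb n ω))
  have h1 : ∀ ω, |tm (g n) (c n) y (w n ω) - tm (g n) (c n) y' (w n ω)| ≤ ‖c n‖ * ((G + δ) * |y - y'|) :=
    fun ω => (tm_lip _ _ _ _ _).trans (mul_le_mul_of_nonneg_left
      (mul_le_mul_of_nonneg_right (hv ω) (abs_nonneg _)) (norm_nonneg _))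
  have h2 : |∫ ω', tm (g n) (c n) y (w n ω') ∂P - ∫ ω', tm (g n) (c n) y' (w n ω') ∂P| ≤
      ‖c n‖ * ((G + δ) * |y - y'|) := by
    rw [← integral_sub (tm_int _ _ _ (hm n)) (tm_int _ _ _ (hm n))]
    have := norm_integral_le_of_norm_le_const (μ := P)
      (f := fun ω => tm (g n) (c n) y (w n ω) - tm (g n) (c n) y' (w n ω))
      (C := ‖c n‖ * ((G + δ) * |y - y'|)) (ae_of_all _ fun ω => by rw [Real.norm_eq_abs]; exact h1 ω)
    rw [Real.norm_eq_abs, probReal_univ, mul_one] at this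
    exact this
  unfold ct
  have e : tm (g n) (c n) y (w n ω) - ∫ ω', tm (g n) (c n) y (w n ω') ∂P -
      (tm (g n) (c n) y' (w n ω) - ∫ ω', tm (g n) (c n) y' (w n ω') ∂P) =
      (tm (g n) (c n) y (w n ω) - tm (g n) (c n) y' (w n ω)) -
      (∫ ω', tm (g n) (c n) y (w n ω') ∂P - ∫ ω', tm (g n) (c n) y' (w n ω') ∂P) := by ring
  rw [e]
  refine (abs_sub _ _).trans ?_
  have := add_le_add (h1 ω) h2
  linarith

/-- The mean of one term. -/
theorem tm_mean {w : Ω → ℝ} (hw : Measurable w) (a : ℝ) (c : ℂ) (y : ℝ) :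
    |∫ ω, tm a c y (w ω) ∂P| ≤ ‖c‖ * ‖∫ ω, Complex.exp ((y * w ω : ℝ) * Complex.I) ∂P‖ := by
  have hint : Integrable (fun ω => Complex.exp ((y * w ω : ℝ) * Complex.I)) P := by
    refine Integrable.of_bound (by fun_prop) 1 (ae_of_all _ fun ω => ?_)
    rw [Complex.norm_exp_ofReal_mul_I]
  have h1 : ∀ ω, tm a c y (w ω) = (c * Complex.exp ((a * y : ℝ) * Complex.I) *
      Complex.exp ((y * w ω : ℝ) * Complex.I)).re := by
    intro ω
    unfold tm
    rw [mul_assoc, ← Complex.exp_add]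
    congr 3
    push_cast
    ring
  have h2 : ∫ ω, tm a c y (w ω) ∂P = (c * Complex.exp ((a * y : ℝ) * Complex.I) *
      ∫ ω, Complex.exp ((y * w ω : ℝ) * Complex.I) ∂P).re := by
    rw [← integral_const_mul]
    simp only [h1]
    exact integral_re (hint.const_mul _)
  rw [h2]
  refine (Complex.abs_re_le_norm _).trans ?_
  rw [norm_mul, norm_mul, Complex.norm_exp_ofReal_mul_I, mul_one]

end Pool.Agent.Helper11.DO
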