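import Pool.Agent.Helper11.DO.Dt

/-!
# Displaced ordinates (MP_a499ba_nt): the upper half

`tail_small`: almost surely the part of the sum beyond `(log y)^(1+ε)` tends to zero, uniformly in the point
from which on it is taken. `upper`: the target `Upper`.
Author: helper11.
-/

set_option autoImplicit false

namespace Pool.Agent.Helper11.DO

open MeasureTheory ProbabilityTheory Filter Finset Pool.Agent.Helper51.DO

/-- The constants. -/
theorem consts {g : ℕ → ℝ} {c : ℕ → ℂ} (h : Data g c) {δ : ℝ} (hδ : 0 ≤ δ) {ε : ℝ} (hε : 0 < ε) :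
    ∃ (C1 C2 v L κ ρ : ℝ), 0 < C1 ∧ 0 < v ∧ 1 ≤ C2 ∧ (∀ i : ℕ, ∑ n ∈ Dk g i, ‖c n‖ ^ 2 ≤ C1 * v ^ i) ∧
      (∀ i : ℕ, ((Dk g i).card : ℝ) ≤ C2 * 4 ^ i) ∧ 0 ≤ L ∧ 0 ≤ κ ∧
      ρ = 2 ^ (-((2 + ε) / (4 * (1 + ε)))) ∧ 0 < ρ ∧ ρ < 1 ∧
      (∀ j i : ℕ, 2 * (C1 * v ^ i) * (2 * j + 8 * i) ≤ (L * Real.sqrt (1 + j) * ρ ^ i) ^ 2) ∧
      (∀ i : ℕ, 2 * (2 ^ (i + 1) + δ) * (∑ n ∈ Dk g i, ‖c n‖) / 16 ^ i ≤ κ * ρ ^ i) := by
  have h1ε : (0 : ℝ) < 1 + ε := by linarith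
  set a := (2 + ε) / (4 * (1 + ε)) with ha
  set e' := ε / (4 * (1 + ε)) with he'
  have he'0 : 0 < e' := by positivity
  have hrel : 1 - 2 * a = 2 * e' := by
    rw [ha, he']
    field_simp
    ring
  have ha0 : 0 < a := by positivity
  have ha1 : a < 1 / 2 := by linarith
  obtain ⟨C1, hC1, h1⟩ := sq_Dk h he'0
  obtain ⟨C2, hC2, h2⟩ := card_Dk h
  set v : ℝ := 2 ^ (e' - 1) with hv
  set ρ : ℝ := 2 ^ (-a) with hρ
  set r : ℝ := 2 ^ e' with hr
  have hv0 : 0 < v := by positivity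
  have hρ0 : 0 < ρ := by positivity
  have hr1 : 1 < r := Real.one_lt_rpow (by norm_num) he'0
  have hv1 : v ≤ 1 := by
    rw [hv]
    refine Real.rpow_le_one_of_one_le_of_nonpos (by norm_num) ?_
    linarith
  have hρ1 : ρ < 1 := Real.rpow_lt_one_of_one_lt_of_neg (by norm_num) (by linarith)
  have hρ2 : 1 / 2 ≤ ρ := by
    have : (2 : ℝ) ^ (-1 : ℝ) ≤ 2 ^ (-a) := Real.rpow_le_rpow_of_exponent_le (by norm_num) (by linarith)
    rw [Real.rpow_neg_one] at this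
    rw [hρ]
    linarith
  have hρv : ρ ^ 2 = v * r := by
    rw [hρ, hv, hr, ← Real.rpow_natCast, ← Real.rpow_mul (by norm_num), ← Real.rpow_add (by norm_num)]
    congr 1
    push_cast
    linarith
  set x := min 1 (r - 1) with hx
  have hx0 : 0 < x := lt_min one_pos (by linarith)
  have hri : ∀ i : ℕ, x * (1 + i) ≤ r ^ i := by
    intro i
    have h3 : 1 + (i : ℝ) * (r - 1) ≤ (1 + (r - 1)) ^ i :=
      one_add_mul_le_pow (by linarith) i
    have e : 1 + (r - 1) = r := by ring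
    rw [e] at h3
    have h4 : x ≤ 1 := min_le_left _ _
    have h5 : x ≤ r - 1 := min_le_right _ _
    have h6 : (i : ℝ) * x ≤ i * (r - 1) := mul_le_mul_of_nonneg_left h5 (Nat.cast_nonneg i)
    nlinarith
  refine ⟨C1, C2, v, Real.sqrt (16 * C1 / x), 2 * (2 + δ) * (C1 + C2), ρ, hC1, hv0, hC2, h1, h2,
    Real.sqrt_nonneg _, by positivity, rfl, hρ0, hρ1, ?_, ?_⟩
  · intro j i
    have e1 : (Real.sqrt (16 * C1 / x) * Real.sqrt (1 + j) * ρ ^ i) ^ 2 =
        16 * C1 / x * (1 + j) * (v ^ i * r ^ i) := by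
      rw [mul_pow, mul_pow, Real.sq_sqrt (by positivity), Real.sq_sqrt (by positivity), ← pow_mul,
        mul_comm i 2, pow_mul, hρv, mul_pow]
    rw [e1]
    have h3 : (2 * (j : ℝ) + 8 * i) ≤ 8 * ((1 + j) * (1 + i)) := by
      have hj : (0 : ℝ) ≤ j := Nat.cast_nonneg j
      have hi : (0 : ℝ) ≤ i := Nat.cast_nonneg i
      nlinarith [mul_nonneg hj hi]
    calc 2 * (C1 * v ^ i) * (2 * j + 8 * i) ≤ 2 * (C1 * v ^ i) * (8 * ((1 + j) * (1 + i))) :=
          mul_le_mul_of_nonneg_left h3 (by positivity)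
      _ = 16 * C1 / x * (1 + j) * (v ^ i * (x * (1 + i))) := by
          field_simp
          ring
      _ ≤ 16 * C1 / x * (1 + j) * (v ^ i * r ^ i) := by
          refine mul_le_mul_of_nonneg_left (mul_le_mul_of_nonneg_left (hri i) (by positivity)) (by positivity)
  · intro i
    have h3 : ∑ n ∈ Dk g i, ‖c n‖ ≤ (C1 + C2) * 4 ^ i := by
      have h4 : ∑ n ∈ Dk g i, ‖c n‖ ≤ ∑ n ∈ Dk g i, (1 + ‖c n‖ ^ 2) := by
        refine sum_le_sum fun n _ => ?_
        nlinarith [sq_nonneg (‖c n‖ - 1), sq_nonneg ‖c n‖]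
      rw [sum_add_distrib, sum_const, nsmul_eq_mul, mul_one] at h4
      have h5 : C1 * v ^ i ≤ C1 * 4 ^ i :=
        mul_le_mul_of_nonneg_left (pow_le_pow_left₀ hv0.le (by linarith) i) hC1.le
      linarith [h1 i, h2 i]
    have h4 : (2 : ℝ) ^ (i + 1) + δ ≤ (2 + δ) * 2 ^ i := by
      have : (1 : ℝ) ≤ 2 ^ i := one_le_pow₀ (by norm_num)
      rw [pow_succ]
      nlinarith
    have h16 : (0 : ℝ) < 16 ^ i := by positivity
    rw [div_le_iff₀ h16]
    have h5 : (2 : ℝ) ^ i * 4 ^ i ≤ ρ ^ i * 16 ^ i := by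
      rw [← mul_pow, ← mul_pow]
      exact pow_le_pow_left₀ (by norm_num) (by linarith) i
    calc 2 * (2 ^ (i + 1) + δ) * (∑ n ∈ Dk g i, ‖c n‖)
        ≤ 2 * ((2 + δ) * 2 ^ i) * ((C1 + C2) * 4 ^ i) := by
          refine mul_le_mul (mul_le_mul_of_nonneg_left h4 (by norm_num)) h3
            (sum_nonneg fun n _ => norm_nonneg _) (by positivity)
      _ = 2 * (2 + δ) * (C1 + C2) * (2 ^ i * 4 ^ i) := by ring
      _ ≤ 2 * (2 + δ) * (C1 + C2) * (ρ ^ i * 16 ^ i) :=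
          mul_le_mul_of_nonneg_left h5 (by positivity)
      _ = _ := by ring

variable {Ω : Type*} [MeasurableSpace Ω] {P : Measure Ω} [IsProbabilityMeasure P]

/-- The mean of the tail. -/
theorem mean_small {g : ℕ → ℝ} {c : ℕ → ℂ} (h : Data g c) {w : ℕ → Ω → ℝ} {δ : ℝ} (hN : Noise P g w δ)
    {η : ℝ} (hη : 0 < η) : ∀ᶠ y : ℝ in atTop, ∀ T : ℝ,
      |∑ n ∈ wd g T (Real.exp (2 * y)), ∫ ω, tm (g n) (c n) y (w n ω) ∂P| ≤ η := by
  classical
  obtain ⟨K, C, hC⟩ := h.size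
  obtain ⟨D, hD⟩ := hN.decay (K + 1)
  have ht : Tendsto (fun y : ℝ => |C| * |D| * 2 ^ K / y) atTop (nhds 0) :=
    tendsto_const_nhds.div_atTop tendsto_id
  filter_upwards [ht.eventually (ge_mem_nhds hη), eventually_ge_atTop 1] with y hy hy1 T
  have hy0 : (0 : ℝ) < y := by linarith
  have h1 : ∀ n ∈ wd g T (Real.exp (2 * y)), |∫ ω, tm (g n) (c n) y (w n ω) ∂P| ≤
      ‖c n‖ * (|D| / y ^ (K + 1)) := by
    intro n hn
    refine (tm_mean (hN.meas n) _ _ _).trans (mul_le_mul_of_nonneg_left ?_ (norm_nonneg _))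
    rw [le_div_iff₀ (by positivity)]
    refine le_trans ?_ ((hD n y (by
      rw [abs_of_pos hy0]
      exact ((mem_wd h.fin).1 hn).1)).trans (le_abs_self D))
    refine mul_le_mul_of_nonneg_left (pow_le_pow_left₀ hy0.le ?_ _) (norm_nonneg _)
    rw [abs_of_pos hy0]
    linarith
  refine (abs_sum_le_sum_abs _ _).trans ((sum_le_sum h1).trans ?_)
  rw [← sum_mul]
  have h2 : ∑ n ∈ wd g T (Real.exp (2 * y)), ‖c n‖ ≤ |C| * (2 * y) ^ K := by
    have h3 : ∑ n ∈ wd g T (Real.exp (2 * y)), ‖c n‖ ≤ ∑ n ∈ upto g (Real.exp (2 * y)), ‖c n‖ :=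
      sum_le_sum_of_subset_of_nonneg (filter_subset _ _) fun n _ _ => norm_nonneg _
    have h4 : (2 : ℝ) ≤ Real.exp (2 * y) := by
      have := Real.add_one_le_exp (2 * y)
      linarith
    have h5 := hC _ h4
    rw [Real.log_exp] at h5
    unfold height at h5
    have h6 : 0 ≤ ∑ n ∈ upto g (Real.exp (2 * y)), ‖c n‖ := sum_nonneg fun n _ => norm_nonneg _
    have h7 : C * (2 * y) ^ K ≤ |C| * (2 * y) ^ K :=
      mul_le_mul_of_nonneg_right (le_abs_self C) (by positivity)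
    linarith
  calc (∑ n ∈ wd g T (Real.exp (2 * y)), ‖c n‖) * (|D| / y ^ (K + 1))
      ≤ (|C| * (2 * y) ^ K) * (|D| / y ^ (K + 1)) := mul_le_mul_of_nonneg_right h2 (by positivity)
    _ = |C| * |D| * 2 ^ K / y := by
        rw [mul_pow, pow_succ]
        field_simp
    _ ≤ η := hy

/-- The part beyond `(log y)^(1+ε)`. -/
theorem tail_small {g : ℕ → ℝ} {c : ℕ → ℂ} (h : Data g c) {w : ℕ → Ω → ℝ} {δ : ℝ} (hN : Noise P g w δ)
    {ε η : ℝ} (hε : 0 < ε) (hη : 0 < η) : ∀ᵐ ω ∂P, ∀ᶠ y : ℝ in atTop, ∀ T : ℝ, Real.log y ^ (1 + ε) ≤ T →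
      |2 * ∑ n ∈ wd g T (Real.exp (2 * y)),
        (c n * Complex.exp (((g n + w n ω) * y : ℝ) * Complex.I)).re| ≤ η := by
  have hne : Nonempty Ω := nonempty_of_isProbabilityMeasure P
  have hδ : 0 ≤ δ := (abs_nonneg _).trans (hN.bdd 0 hne.some)
  obtain ⟨C1, C2, v, L, κ, ρ, hC1, hv, hC2, h1, h2, hL, hκ, hρ, hρ0, hρ1, hl, hk⟩ := consts h hδ hε
  have hbc := bc hN.meas hN.indep (lam := fun j i : ℕ => L * Real.sqrt (1 + j) * ρ ^ i) hC1 hv hC2 h1 h2
    (fun j i => by positivity) hl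
  have h1ε : (0 : ℝ) < 1 + ε := by linarith
  set K0 := (L + κ) * Real.sqrt 3 / (ρ * (1 - ρ)) with hK0
  have hK00 : 0 ≤ K0 := by
    have : 0 < 1 - ρ := by linarith
    positivity
  have hlog : Tendsto (fun y : ℝ => K0 * Real.log y ^ (-(ε / 4))) atTop (nhds 0) := by
    have h3 := ((tendsto_rpow_neg_atTop (show 0 < ε / 4 by positivity)).comp Real.tendsto_log_atTop).const_mul K0
    rw [mul_zero] at h3
    exact h3
  filter_upwards [hbc] with ω hω
  obtain ⟨J, hJ⟩ := hω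
  filter_upwards [mean_small h hN (show 0 < η / 4 by positivity),
    hlog.eventually (ge_mem_nhds (show (0 : ℝ) < η / 4 by positivity)),
    eventually_ge_atTop ((2 : ℝ) ^ (J + 1)), Real.tendsto_log_atTop.eventually_ge_atTop 1,
    eventually_ge_atTop (1 : ℝ)] with y hy1 hy2 hy3 hy4 hy5 T hT
  have hy0 : (0 : ℝ) < y := by linarith
  have hly0 : 0 < Real.log y := by linarith
  -- the dyadic interval of y
  set j := Nat.log 2 ⌊y⌋₊ with hj
  have hfl : 1 ≤ ⌊y⌋₊ := Nat.le_floor (by exact_mod_cast hy5)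
  have hj1 : (2 : ℝ) ^ j ≤ y := by
    have h3 : 2 ^ j ≤ ⌊y⌋₊ := Nat.pow_log_le_self 2 (by omega)
    have h4 : ((2 ^ j : ℕ) : ℝ) ≤ (⌊y⌋₊ : ℝ) := by exact_mod_cast h3
    push_cast at h4
    exact h4.trans (Nat.floor_le hy0.le)
  have hj2 : y ≤ 2 ^ (j + 1) := by
    have h3 : ⌊y⌋₊ < 2 ^ (j + 1) := Nat.lt_pow_succ_log_self (by norm_num) _
    have h4 : (⌊y⌋₊ : ℝ) + 1 ≤ ((2 ^ (j + 1) : ℕ) : ℝ) := by exact_mod_cast h3
    push_cast at h4
    exact ((Nat.lt_floor_add_one y).trans_le h4).le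
  have hjJ : J ≤ j := by
    have h3 : (2 : ℝ) ^ (J + 1) ≤ 2 ^ (j + 1) := hy3.trans hj2
    have h4 := (pow_le_pow_iff_right₀ (by norm_num : (1 : ℝ) < 2)).1 h3
    omega
  have hjl : 1 + (j : ℝ) ≤ 3 * Real.log y := by
    have h3 := Real.log_le_log (by positivity) hj1
    rw [Real.log_pow] at h3
    have h4 : (1 : ℝ) / 2 ≤ Real.log 2 := by
      have := Real.log_two_gt_d9
      linarith
    have h5 : (j : ℝ) * (1 / 2) ≤ j * Real.log 2 := mul_le_mul_of_nonneg_left h4 (Nat.cast_nonneg j)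
    linarith
  -- the first block
  set Y := Real.log y ^ (1 + ε) with hY
  have hY1 : 1 ≤ Y := Real.one_le_rpow hy4 h1ε.le
  set i₁ := Nat.log 2 ⌊Y⌋₊ with hi₁
  have hi₂ : Y < 2 ^ (i₁ + 1) := by
    have h3 : ⌊Y⌋₊ < 2 ^ (i₁ + 1) := Nat.lt_pow_succ_log_self (by norm_num) _
    have h4 : (⌊Y⌋₊ : ℝ) + 1 ≤ ((2 ^ (i₁ + 1) : ℕ) : ℝ) := by exact_mod_cast h3
    push_cast at h4
    exact (Nat.lt_floor_add_one Y).trans_le h4
  have hblk : ∀ n ∈ wd g T (Real.exp (2 * y)), i₁ ≤ blk g n := by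
    intro n hn
    have h3 := ((mem_wd h.fin).1 hn).2
    exact Nat.log_mono_right (Nat.floor_mono (hT.trans h3.le))
  have hdet := det h.fin hN.meas hδ hN.bdd (g := g) (c := c) (lam := fun j i : ℕ => L * Real.sqrt (1 + j) * ρ ^ i)
    (j := j) (ω := ω) (fun i => hJ j hjJ i) hj1 hj2 (κ := (L + κ) * Real.sqrt (1 + j)) hρ0 hρ1 (by positivity)
    (fun i => by
      have h3 := hk i
      have h4 : (1 : ℝ) ≤ Real.sqrt (1 + j) := by
        rw [Real.one_le_sqrt]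
        have : (0 : ℝ) ≤ j := Nat.cast_nonneg j
        linarith
      have h5 : κ * ρ ^ i ≤ κ * Real.sqrt (1 + j) * ρ ^ i :=
        mul_le_mul_of_nonneg_right (le_mul_of_one_le_right hκ h4) (by positivity)
      nlinarith) (hY1.trans hT) hblk
  have hρi : ρ ^ i₁ ≤ ρ⁻¹ * Real.log y ^ (-((2 + ε) / 4)) := by
    have e1 : ρ ^ i₁ = ρ⁻¹ * ρ ^ (i₁ + 1) := by
      rw [pow_succ]
      field_simp
    rw [e1]
    refine mul_le_mul_of_nonneg_left ?_ (by positivity)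
    have e2 : ρ ^ (i₁ + 1) = ((2 : ℝ) ^ (i₁ + 1)) ^ (-((2 + ε) / (4 * (1 + ε)))) := by
      rw [hρ, ← Real.rpow_natCast, ← Real.rpow_natCast, ← Real.rpow_mul (by norm_num),
        ← Real.rpow_mul (by norm_num), mul_comm]
    have e3 : Real.log y ^ (-((2 + ε) / 4)) = Y ^ (-((2 + ε) / (4 * (1 + ε)))) := by
      rw [hY, ← Real.rpow_mul hly0.le]
      congr 1
      field_simp
    rw [e2, e3]
    refine Real.rpow_le_rpow_of_nonpos (by linarith) hi₂.le ?_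
    have : 0 ≤ (2 + ε) / (4 * (1 + ε)) := by positivity
    linarith
  have hsq : Real.sqrt (1 + j) ≤ Real.sqrt 3 * Real.log y ^ ((1 : ℝ) / 2) := by
    rw [← Real.sqrt_eq_rpow, ← Real.sqrt_mul (by norm_num)]
    exact Real.sqrt_le_sqrt hjl
  have h1ρ : 0 < 1 - ρ := by linarith
  have hct : |∑ n ∈ wd g T (Real.exp (2 * y)), ct P (w n) (g n) (c n) y ω| ≤ η / 4 := by
    refine hdet.trans (le_trans ?_ hy2)
    calc (L + κ) * Real.sqrt (1 + j) * (ρ ^ i₁ / (1 - ρ))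
        ≤ (L + κ) * (Real.sqrt 3 * Real.log y ^ ((1 : ℝ) / 2)) *
          ((ρ⁻¹ * Real.log y ^ (-((2 + ε) / 4))) / (1 - ρ)) := by gcongr
      _ = K0 * (Real.log y ^ ((1 : ℝ) / 2) * Real.log y ^ (-((2 + ε) / 4))) := by
          rw [hK0]
          field_simp
      _ = K0 * Real.log y ^ (-(ε / 4)) := by
          rw [← Real.rpow_add hly0]
          congr 2
          ring
  have hsplit : ∑ n ∈ wd g T (Real.exp (2 * y)),
      (c n * Complex.exp (((g n + w n ω) * y : ℝ) * Complex.I)).re =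
      ∑ n ∈ wd g T (Real.exp (2 * y)), ct P (w n) (g n) (c n) y ω +
      ∑ n ∈ wd g T (Real.exp (2 * y)), ∫ ω, tm (g n) (c n) y (w n ω) ∂P := by
    rw [← sum_add_distrib]
    refine sum_congr rfl fun n _ => ?_
    unfold ct
    rw [sub_add_cancel]
    rfl
  rw [hsplit, abs_mul, abs_two]
  have h3 := abs_add_le (∑ n ∈ wd g T (Real.exp (2 * y)), ct P (w n) (g n) (c n) y ω)
    (∑ n ∈ wd g T (Real.exp (2 * y)), ∫ ω, tm (g n) (c n) y (w n ω) ∂P)
  have h4 := hy1 T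
  linarith

/-- The upper half, for one pair of data and noise. -/
theorem upper_of {g : ℕ → ℝ} {c : ℕ → ℂ} (h : Data g c) {w : ℕ → Ω → ℝ} {δ : ℝ} (hN : Noise P g w δ)
    {ε : ℝ} (hε : 0 < ε) : ∀ᵐ ω ∂P, ∀ᶠ y : ℝ in atTop,
      |osc g c (fun n => w n ω) y| ≤ height g c (Real.log y ^ (1 + ε)) + 1 := by
  classical
  filter_upwards [tail_small h hN hε one_pos] with ω hω
  filter_upwards [hω] with y hy
  have h1 := hy _ le_rfl
  unfold osc height
  set T := Real.log y ^ (1 + ε) with hT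
  set f : ℕ → ℝ := fun n => (c n * Complex.exp (((g n + w n ω) * y : ℝ) * Complex.I)).re with hf
  have h2 : ∑ n ∈ upto g (Real.exp (2 * y)), f n =
      ∑ n ∈ (upto g (Real.exp (2 * y))).filter (fun n => ¬ T < g n), f n +
      ∑ n ∈ wd g T (Real.exp (2 * y)), f n := by
    rw [add_comm]
    unfold wd
    exact (sum_filter_add_sum_filter_not _ _ _).symm
  have h3 : |∑ n ∈ (upto g (Real.exp (2 * y))).filter (fun n => ¬ T < g n), f n| ≤
      ∑ n ∈ upto g T, ‖c n‖ := by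
    refine (abs_sum_le_sum_abs _ _).trans ?_
    refine (sum_le_sum fun n _ => tm_abs (g n) (c n) y (w n ω)).trans ?_
    refine sum_le_sum_of_subset_of_nonneg ?_ fun n _ _ => norm_nonneg _
    intro n hn
    rw [mem_upto (h.fin _)]
    exact not_lt.1 (mem_filter.1 hn).2
  rw [h2, mul_add]
  refine (abs_add_le _ _).trans (add_le_add ?_ h1)
  rw [abs_mul, abs_two]
  linarith

/-- The target `Upper`. -/
theorem upper : Upper := fun _ _ h _ _ _ _ _ _ hN _ hε => upper_of h hN hε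

end Pool.Agent.Helper11.DO
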